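import Pool.Agent.Helper591.Five.Fourier

set_option linter.unusedSectionVars false

open Finset

namespace Pool.Agent.Helper591.Five

section Bohr

variable {n : ℕ} [NeZero n]

theorem psi_eq (x : ZMod n) : psi n x = Complex.exp (Complex.I * ((2 * Real.pi * (x.val / n) : ℝ) : ℂ)) := by
  have h := ZMod.stdAddChar_coe (N := n) (x.val : ℤ)
  have h2 : (((x.val : ℤ)) : ZMod n) = x := by simp
  rw [h2] at h
  rw [h]
  congr 1
  push_cast
  ring

theorem norm_psi_sub_le (x y : ZMod n) :
    ‖psi n x - psi n y‖ ≤ 2 * Real.pi * |(x.val : ℝ) / n - (y.val : ℝ) / n| := by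
  rw [psi_eq, psi_eq]
  set a : ℝ := 2 * Real.pi * (x.val / n) with ha
  set b : ℝ := 2 * Real.pi * (y.val / n) with hb
  have h1 : Complex.exp (Complex.I * (a : ℂ)) - Complex.exp (Complex.I * (b : ℂ))
      = Complex.exp (Complex.I * (b : ℂ)) * (Complex.exp (Complex.I * ((a - b : ℝ) : ℂ)) - 1) := by
    rw [mul_sub, ← Complex.exp_add]
    congr 2
    · push_cast; ring
    · ring
  rw [h1, norm_mul]
  have h2 : ‖Complex.exp (Complex.I * (b : ℂ))‖ = 1 := by
    rw [mul_comm]; exact Complex.norm_exp_ofReal_mul_I b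
  rw [h2, one_mul]
  refine (Real.norm_exp_I_mul_ofReal_sub_one_le).trans ?_
  rw [Real.norm_eq_abs, ha, hb, ← mul_sub, abs_mul, abs_of_pos (by positivity : 0 < 2 * Real.pi)]

/-- a large set on which finitely many characters are almost trivial -/
theorem bohr (L : Finset (ZMod n)) (k : ℕ) (hk : 0 < k) :
    ∃ B : Finset (ZMod n), B.Nonempty ∧ n ≤ B.card * k ^ L.card ∧
      ∀ r ∈ L, ‖ft (ind B) r - B.card‖ ≤ (2 * Real.pi / k) * B.card := by
  classical
  have hn : 0 < n := Nat.pos_of_ne_zero (NeZero.ne n)
  have hn' : (0 : ℝ) < n := by exact_mod_cast hn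
  have hk' : (0 : ℝ) < k := by exact_mod_cast hk
  let f : ZMod n → (L → Fin k) := fun x r => ⟨k * (r.1 * x).val / n, by
    have := ZMod.val_lt (r.1 * x)
    rw [Nat.div_lt_iff_lt_mul hn]
    exact Nat.mul_lt_mul_of_pos_left this hk⟩
  obtain ⟨y, hy⟩ : ∃ y : L → Fin k, n ≤ ((univ.filter (fun x => f x = y)).card) * k ^ L.card := by
    by_contra hcon
    push Not at hcon
    have h1 : ∑ y : L → Fin k, (univ.filter (fun x => f x = y)).card = n := by
      have := Finset.card_eq_sum_card_fiberwise (s := (univ : Finset (ZMod n)))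
        (t := (univ : Finset (L → Fin k))) (f := f) (fun x _ => Finset.mem_coe.2 (Finset.mem_univ _))
      rw [Finset.card_univ, ZMod.card] at this
      exact this.symm
    have h2 : (∑ y : L → Fin k, (univ.filter (fun x => f x = y)).card) * k ^ L.card
        < n * k ^ L.card := by
      rw [Finset.sum_mul]
      have h3 : ∑ y : L → Fin k, (univ.filter (fun x => f x = y)).card * k ^ L.card
          < ∑ y : L → Fin k, n := by
        refine Finset.sum_lt_sum_of_nonempty ?_ (fun y _ => hcon y)
        exact ⟨fun _ => ⟨0, hk⟩, Finset.mem_univ _⟩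
      refine h3.trans_le (le_of_eq ?_)
      rw [Finset.sum_const, Finset.card_univ, Fintype.card_fun, Fintype.card_fin,
        Fintype.card_coe, smul_eq_mul, mul_comm]
    rw [h1] at h2
    exact lt_irrefl _ h2
  set F := univ.filter (fun x => f x = y) with hF
  have hFne : F.Nonempty := by
    rw [Finset.nonempty_iff_ne_empty]
    intro h
    rw [h] at hy
    simp at hy
    omega
  obtain ⟨x0, hx0⟩ := hFne
  have hinj : Function.Injective (fun x : ZMod n => x - x0) := sub_left_injective
  refine ⟨F.image (fun x => x - x0), ⟨_, Finset.mem_image_of_mem _ hx0⟩, ?_, ?_⟩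
  · rw [Finset.card_image_of_injective _ hinj]; exact hy
  · intro r hr
    rw [ft_ind, Finset.sum_image (fun a _ b _ h => hinj h), Finset.card_image_of_injective _ hinj]
    have e1 : (∑ x ∈ F, psi n (r * (x - x0)) : ℂ) - (F.card : ℂ)
        = ∑ x ∈ F, (psi n (r * (x - x0)) - 1) := by
      rw [Finset.sum_sub_distrib]; simp
    rw [e1]
    refine (norm_sum_le _ _).trans ?_
    have e2 : ∀ x ∈ F, ‖psi n (r * (x - x0)) - 1‖ ≤ 2 * Real.pi / k := by
      intro x hx
      have h3 : psi n (r * (x - x0)) - 1 = psi n (-(r * x0)) * (psi n (r * x) - psi n (r * x0)) := by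
        have e3 : psi n (r * (x - x0)) = psi n (-(r * x0)) * psi n (r * x) := by
          rw [← AddChar.map_add_eq_mul]; congr 1; ring
        have e4 : psi n (-(r * x0)) * psi n (r * x0) = 1 := by
          rw [← AddChar.map_add_eq_mul, neg_add_cancel, AddChar.map_zero_eq_one]
        rw [e3, mul_sub, e4]
      rw [h3, norm_mul, norm_psi, one_mul]
      refine (norm_psi_sub_le _ _).trans ?_
      rw [mul_div_assoc]
      rw [hF, Finset.mem_filter] at hx hx0
      have h4 : k * (r * x).val / n = k * (r * x0).val / n := by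
        have h5 : f x = f x0 := by rw [hx.2, hx0.2]
        have h6 := congrArg Fin.val (congrFun h5 ⟨r, hr⟩)
        exact h6
      set a := (r * x).val with ha
      set b := (r * x0).val with hb
      have h7 : |((k * a : ℕ) : ℝ) - ((k * b : ℕ) : ℝ)| ≤ n := by
        have ha1 := Nat.div_add_mod (k * a) n
        have hb1 := Nat.div_add_mod (k * b) n
        have ha2 := Nat.mod_lt (k * a) hn
        have hb2 := Nat.mod_lt (k * b) hn
        rw [h4] at ha1
        rw [abs_le]
        constructor
        · have : k * b ≤ k * a + n := by omega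
          have : ((k * b : ℕ) : ℝ) ≤ ((k * a : ℕ) : ℝ) + n := by exact_mod_cast this
          linarith
        · have : k * a ≤ k * b + n := by omega
          have : ((k * a : ℕ) : ℝ) ≤ ((k * b : ℕ) : ℝ) + n := by exact_mod_cast this
          linarith
      have h8 : |(a : ℝ) / n - (b : ℝ) / n| ≤ 1 / k := by
        have h9 : (a : ℝ) / n - (b : ℝ) / n = (((k * a : ℕ) : ℝ) - ((k * b : ℕ) : ℝ)) / (k * n) := by
          push_cast; field_simp
        rw [h9, abs_div, abs_of_pos (by positivity : (0:ℝ) < k * n), div_le_div_iff₀ (by positivity)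
          (by positivity)]
        nlinarith
      have h10 : 2 * (Real.pi / k) = 2 * Real.pi * (1 / k) := by ring
      rw [h10]
      gcongr
    refine (Finset.sum_le_sum e2).trans ?_
    rw [Finset.sum_const, nsmul_eq_mul, mul_comm]

end Bohr

end Pool.Agent.Helper591.Five
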