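import Pool.Agent.Helper591.Five.Fourier

set_option linter.unusedSectionVars false

open Finset

namespace Pool.Agent.Helper591.Five

section Est

variable {n : ℕ} [NeZero n]

theorem pow5_sub (z w : ℂ) (b : ℝ) (hz : ‖z‖ ≤ b) (hw : ‖w‖ ≤ b) :
    ‖z ^ 5 - w ^ 5‖ ≤ ‖z - w‖ * (5 * b ^ 4) := by
  have hb : 0 ≤ b := (norm_nonneg z).trans hz
  have h1 : z ^ 5 - w ^ 5 = (z - w) * (z ^ 4 + z ^ 3 * w + z ^ 2 * w ^ 2 + z * w ^ 3 + w ^ 4) := by
    ring
  rw [h1, norm_mul]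
  refine mul_le_mul_of_nonneg_left ?_ (norm_nonneg _)
  have hz' := norm_nonneg z
  have hw' := norm_nonneg w
  have e1 : ‖z ^ 4‖ ≤ b ^ 4 := by
    rw [norm_pow]; exact pow_le_pow_left₀ hz' hz 4
  have e2 : ‖z ^ 3 * w‖ ≤ b ^ 4 := by
    rw [norm_mul, norm_pow]
    calc ‖z‖ ^ 3 * ‖w‖ ≤ b ^ 3 * b := by gcongr
      _ = b ^ 4 := by ring
  have e3 : ‖z ^ 2 * w ^ 2‖ ≤ b ^ 4 := by
    rw [norm_mul, norm_pow, norm_pow]
    calc ‖z‖ ^ 2 * ‖w‖ ^ 2 ≤ b ^ 2 * b ^ 2 := by gcongr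
      _ = b ^ 4 := by ring
  have e4 : ‖z * w ^ 3‖ ≤ b ^ 4 := by
    rw [norm_mul, norm_pow]
    calc ‖z‖ * ‖w‖ ^ 3 ≤ b * b ^ 3 := by gcongr
      _ = b ^ 4 := by ring
  have e5 : ‖w ^ 4‖ ≤ b ^ 4 := by
    rw [norm_pow]; exact pow_le_pow_left₀ hw' hw 4
  calc ‖z ^ 4 + z ^ 3 * w + z ^ 2 * w ^ 2 + z * w ^ 3 + w ^ 4‖
      ≤ ‖z ^ 4‖ + ‖z ^ 3 * w‖ + ‖z ^ 2 * w ^ 2‖ + ‖z * w ^ 3‖ + ‖w ^ 4‖ := by
        refine (norm_add_le _ _).trans ?_
        gcongr
        refine (norm_add_le _ _).trans ?_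
        gcongr
        refine (norm_add_le _ _).trans ?_
        gcongr
        exact norm_add_le _ _
    _ ≤ 5 * b ^ 4 := by linarith

/-- main analytic estimate -/
theorem five_conv (S B : Finset (ZMod n)) (hS : ∀ s ∈ S, -s ∈ S) (h5 : (zs S 5).card = 0)
    (h4 : ((zs S 4).card : ℝ) ≤ 3 * (S.card : ℝ) ^ 2) {ε η : ℝ} (hε : 0 ≤ ε) (hη : 0 ≤ η)
    (hB : ∀ r, ε * S.card ≤ ‖ft (ind S) r‖ → ‖ft (ind B) r - B.card‖ ≤ η * B.card) :
    ∑ v : Fin 5 → ZMod n, (if ∑ i, v i = 0 then ∏ i, conv S B (v i) else 0)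
      ≤ 3 * (5 * η + 2 * ε) * (S.card : ℝ) ^ 3 * (B.card : ℝ) ^ 5 := by
  set d : ℝ := (S.card : ℝ) with hd
  set b : ℝ := (B.card : ℝ) with hb
  have hd0 : 0 ≤ d := Nat.cast_nonneg _
  have hb0 : 0 ≤ b := Nat.cast_nonneg _
  have hn0 : (0 : ℝ) < n := by exact_mod_cast Nat.pos_of_ne_zero (NeZero.ne n)
  set L : ℝ := ∑ v : Fin 5 → ZMod n, (if ∑ i, v i = 0 then ∏ i, conv S B (v i) else 0) with hL
  have e1 : ((n * L : ℝ) : ℂ) = ∑ r, (ft (ind S) r * ft (ind B) r) ^ 5 := by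
    have := sum_ft_pow (fun x => (conv S B x : ℂ)) 5
    simp_rw [ft_conv] at this
    rw [this, hL]
    push_cast
    congr 1
    refine Finset.sum_congr rfl fun v _ => ?_
    split_ifs <;> simp
  have e2 : ∑ r, (ft (ind S) r) ^ 5 = 0 := by
    rw [sum_ft_ind_pow, h5]; simp
  have e3 : ((n * L : ℝ) : ℂ) = ∑ r, (ft (ind S) r) ^ 5 * ((ft (ind B) r) ^ 5 - (b : ℂ) ^ 5) := by
    rw [e1]
    have : ∑ r, (ft (ind S) r) ^ 5 * ((ft (ind B) r) ^ 5 - (b : ℂ) ^ 5)
        = ∑ r, (ft (ind S) r * ft (ind B) r) ^ 5 - (∑ r, (ft (ind S) r) ^ 5) * (b : ℂ) ^ 5 := by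
      rw [Finset.sum_mul, ← Finset.sum_sub_distrib]
      refine Finset.sum_congr rfl fun r _ => ?_
      ring
    rw [this, e2]; ring
  have e4 : n * L ≤ ∑ r, ‖ft (ind S) r‖ ^ 4 * (d * (5 * η + 2 * ε) * b ^ 5) := by
    have h1 : n * L ≤ ‖((n * L : ℝ) : ℂ)‖ := by
      rw [Complex.norm_real]; exact le_abs_self _
    refine h1.trans ?_
    rw [e3]
    refine (norm_sum_le _ _).trans ?_
    refine Finset.sum_le_sum fun r _ => ?_
    rw [norm_mul, norm_pow]
    have hSr : ‖ft (ind S) r‖ ≤ d := norm_ft_ind_le S r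
    have hBr : ‖ft (ind B) r‖ ≤ b := norm_ft_ind_le B r
    have hbb : ‖(b : ℂ)‖ ≤ b := by rw [Complex.norm_real, Real.norm_of_nonneg hb0]
    have hnn := norm_nonneg (ft (ind S) r)
    by_cases hr : ε * d ≤ ‖ft (ind S) r‖
    · have h2 := hB r hr
      have h3 : ‖(ft (ind B) r) ^ 5 - (b : ℂ) ^ 5‖ ≤ (η * b) * (5 * b ^ 4) := by
        refine (pow5_sub _ _ b hBr hbb).trans ?_
        have : ‖ft (ind B) r - (b : ℂ)‖ ≤ η * b := by
          rw [hb]; simpa using h2
        gcongr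
      calc ‖ft (ind S) r‖ ^ 5 * ‖(ft (ind B) r) ^ 5 - (b : ℂ) ^ 5‖
          ≤ (‖ft (ind S) r‖ ^ 4 * d) * ((η * b) * (5 * b ^ 4)) := by
            have : ‖ft (ind S) r‖ ^ 5 ≤ ‖ft (ind S) r‖ ^ 4 * d := by
              rw [pow_succ]; gcongr
            gcongr
        _ ≤ ‖ft (ind S) r‖ ^ 4 * (d * (5 * η + 2 * ε) * b ^ 5) := by
            have h6 : 0 ≤ ‖ft (ind S) r‖ ^ 4 * d * b ^ 5 := by positivity
            nlinarith [mul_nonneg h6 hε]
    · push Not at hr
      have h3 : ‖(ft (ind B) r) ^ 5 - (b : ℂ) ^ 5‖ ≤ 2 * b ^ 5 := by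
        refine (norm_sub_le _ _).trans ?_
        rw [norm_pow, norm_pow]
        have := pow_le_pow_left₀ (norm_nonneg _) hBr 5
        have := pow_le_pow_left₀ (norm_nonneg _) hbb 5
        linarith
      calc ‖ft (ind S) r‖ ^ 5 * ‖(ft (ind B) r) ^ 5 - (b : ℂ) ^ 5‖
          ≤ (‖ft (ind S) r‖ ^ 4 * (ε * d)) * (2 * b ^ 5) := by
            have : ‖ft (ind S) r‖ ^ 5 ≤ ‖ft (ind S) r‖ ^ 4 * (ε * d) := by
              rw [pow_succ]; gcongr
            gcongr
        _ ≤ ‖ft (ind S) r‖ ^ 4 * (d * (5 * η + 2 * ε) * b ^ 5) := by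
            have h6 : 0 ≤ ‖ft (ind S) r‖ ^ 4 * d * b ^ 5 := by positivity
            nlinarith [mul_nonneg h6 hη]
  rw [← Finset.sum_mul, sum_norm_four S hS] at e4
  have e5 : n * ((zs S 4).card : ℝ) * (d * (5 * η + 2 * ε) * b ^ 5)
      ≤ n * (3 * d ^ 2) * (d * (5 * η + 2 * ε) * b ^ 5) := by
    gcongr
  have e6 : n * L ≤ n * (3 * (5 * η + 2 * ε) * d ^ 3 * b ^ 5) := by
    refine e4.trans (e5.trans (le_of_eq ?_)); ring
  exact le_of_mul_le_mul_left e6 hn0

/-- second moment of the convolution -/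
theorem sumsq_conv (S B : Finset (ZMod n))
    (h2 : ∀ y : ZMod n, y ≠ 0 → ((S ×ˢ S).filter (fun q => q.1 - q.2 = y)).card ≤ 2) :
    ∑ x, (conv S B x) ^ 2 ≤ S.card * B.card + 2 * (B.card : ℝ) ^ 2 := by
  have h1 : ∑ x, (conv S B x) ^ 2 = ∑ b' ∈ B, ∑ b ∈ B,
      (((S ×ˢ S).filter (fun q => q.1 - q.2 = b' - b)).card : ℝ) := by
    have e1 : ∀ x : ZMod n, (conv S B x) ^ 2 = ∑ s' ∈ S, ∑ b' ∈ B,
        if s' + b' = x then conv S B x else 0 := by
      intro x
      rw [pow_two]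
      nth_rewrite 1 [conv]
      rw [Finset.sum_mul]
      refine Finset.sum_congr rfl fun s _ => ?_
      rw [Finset.sum_mul]
      refine Finset.sum_congr rfl fun b _ => ?_
      split_ifs <;> simp
    simp_rw [e1]
    rw [Finset.sum_comm]
    have e2 : ∀ s' ∈ S, ∑ x : ZMod n, ∑ b' ∈ B, (if s' + b' = x then conv S B x else 0)
        = ∑ b' ∈ B, conv S B (s' + b') := by
      intro s' _
      rw [Finset.sum_comm]
      refine Finset.sum_congr rfl fun b' _ => ?_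
      rw [Finset.sum_ite_eq]; simp
    rw [Finset.sum_congr rfl e2, Finset.sum_comm]
    refine Finset.sum_congr rfl fun b' _ => ?_
    unfold conv
    have e3 : ∀ s' ∈ S, ∑ s ∈ S, ∑ b ∈ B, (if s + b = s' + b' then (1:ℝ) else 0)
        = ∑ b ∈ B, ∑ s ∈ S, (if s + b = s' + b' then (1:ℝ) else 0) := by
      intro s' _; rw [Finset.sum_comm]
    rw [Finset.sum_congr rfl e3, Finset.sum_comm]
    refine Finset.sum_congr rfl fun b _ => ?_
    rw [Finset.card_filter, Finset.sum_product, Finset.sum_comm]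
    push_cast
    refine Finset.sum_congr rfl fun s' _ => ?_
    refine Finset.sum_congr rfl fun s _ => ?_
    have : (s' + b = s + b') ↔ (s' - s = b' - b) := by
      constructor <;> intro h
      · linear_combination h
      · linear_combination h
    by_cases hh : s' + b = s + b'
    · rw [if_pos hh, if_pos (this.1 hh)]
    · rw [if_neg hh, if_neg (fun h => hh (this.2 h))]
  rw [h1]
  have h3 : ∀ b' ∈ B, ∑ b ∈ B, (((S ×ˢ S).filter (fun q => q.1 - q.2 = b' - b)).card : ℝ)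
      ≤ S.card + 2 * B.card := by
    intro b' hb'
    have h4 : ∀ b ∈ B, (((S ×ˢ S).filter (fun q => q.1 - q.2 = b' - b)).card : ℝ)
        ≤ (if b = b' then (S.card : ℝ) else 0) + 2 := by
      intro b _
      by_cases hbb : b = b'
      · subst hbb
        simp only [sub_self, if_true]
        have : ((S ×ˢ S).filter (fun q => q.1 - q.2 = 0)).card ≤ S.card := by
          refine Finset.card_le_card_of_injOn (fun q => q.1) ?_ ?_
          · intro q hq
            simp only [Finset.coe_filter, Finset.mem_product, Set.mem_ofPred_eq] at hq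
            exact hq.1.1
          · intro q hq q' hq' h
            simp only [Finset.coe_filter, Finset.mem_product, Set.mem_ofPred_eq] at hq hq'
            have e1 := sub_eq_zero.1 hq.2
            have e2 := sub_eq_zero.1 hq'.2
            simp only at h
            exact Prod.ext h (by rw [← e1, ← e2, h])
        have : (((S ×ˢ S).filter (fun q => q.1 - q.2 = 0)).card : ℝ) ≤ S.card := by
          exact_mod_cast this
        linarith
      · rw [if_neg hbb]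
        have := h2 (b' - b) (fun h => hbb (sub_eq_zero.1 h).symm)
        have : (((S ×ˢ S).filter (fun q => q.1 - q.2 = b' - b)).card : ℝ) ≤ 2 := by
          exact_mod_cast this
        linarith
    refine (Finset.sum_le_sum h4).trans ?_
    rw [Finset.sum_add_distrib, Finset.sum_ite_eq', if_pos hb']
    simp
    linarith
  refine (Finset.sum_le_sum h3).trans ?_
  rw [Finset.sum_const, nsmul_eq_mul]
  nlinarith [sq_nonneg (B.card : ℝ)]

/-- level set of the convolution: it is large and has few zero-sum five-tuples -/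
theorem level_set (S B : Finset (ZMod n)) (hS : ∀ s ∈ S, -s ∈ S) (h5 : (zs S 5).card = 0)
    (h4 : ((zs S 4).card : ℝ) ≤ 3 * (S.card : ℝ) ^ 2)
    (h2 : ∀ y : ZMod n, y ≠ 0 → ((S ×ˢ S).filter (fun q => q.1 - q.2 = y)).card ≤ 2)
    {ε η δ : ℝ} (hε : 0 ≤ ε) (hη : 0 ≤ η) (hδ : 0 < δ) (hδ1 : δ < 1)
    (hSne : S.Nonempty) (hBne : B.Nonempty)
    (hB : ∀ r, ε * S.card ≤ ‖ft (ind S) r‖ → ‖ft (ind B) r - B.card‖ ≤ η * B.card) :
    ∃ P : Finset (ZMod n),
      (1 - δ) ^ 2 * (S.card : ℝ) ^ 2 * B.card ≤ P.card * (S.card + 2 * B.card) ∧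
      ((zs P 5).card : ℝ) * (δ ^ 5 * (S.card : ℝ) ^ 2) ≤ 3 * (5 * η + 2 * ε) * (n : ℝ) ^ 5 := by
  have hd0 : (0 : ℝ) < S.card := by exact_mod_cast hSne.card_pos
  have hb0 : (0 : ℝ) < B.card := by exact_mod_cast hBne.card_pos
  have hn0 : (0 : ℝ) < n := by exact_mod_cast Nat.pos_of_ne_zero (NeZero.ne n)
  set d : ℝ := (S.card : ℝ) with hd
  set b : ℝ := (B.card : ℝ) with hb
  set θ : ℝ := δ * d * b / n with hθ
  have hθ0 : 0 < θ := by positivity
  refine ⟨univ.filter (fun x => θ ≤ conv S B x), ?_, ?_⟩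
  · set P : Finset (ZMod n) := univ.filter (fun x => θ ≤ conv S B x) with hP
    have e1 : (1 - δ) * (d * b) ≤ ∑ x ∈ P, conv S B x := by
      have h1 := sum_conv S B
      have h3 : ∑ x, conv S B x = ∑ x ∈ P, conv S B x + ∑ x ∈ univ.filter (fun x => ¬ θ ≤ conv S B x),
          conv S B x := (Finset.sum_filter_add_sum_filter_not _ _ _).symm
      have h6 : ∑ x ∈ univ.filter (fun x : ZMod n => ¬ θ ≤ conv S B x), conv S B x ≤ δ * d * b := by
        calc ∑ x ∈ univ.filter (fun x : ZMod n => ¬ θ ≤ conv S B x), conv S B x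
            ≤ ∑ x ∈ univ.filter (fun x : ZMod n => ¬ θ ≤ conv S B x), θ := by
              refine Finset.sum_le_sum fun x hx => ?_
              rw [Finset.mem_filter] at hx
              exact le_of_lt (not_le.1 hx.2)
          _ ≤ ∑ x : ZMod n, θ := by
              refine Finset.sum_le_sum_of_subset_of_nonneg (Finset.filter_subset _ _) ?_
              intro x _ _; exact hθ0.le
          _ = δ * d * b := by
              rw [Finset.sum_const, Finset.card_univ, ZMod.card, nsmul_eq_mul, hθ]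
              field_simp
      have : d * b = ∑ x ∈ P, conv S B x + ∑ x ∈ univ.filter (fun x => ¬ θ ≤ conv S B x),
          conv S B x := by rw [← h3, h1]
      nlinarith
    have e2 : (∑ x ∈ P, conv S B x) ^ 2 ≤ P.card * ∑ x ∈ P, (conv S B x) ^ 2 :=
      sq_sum_le_card_mul_sum_sq
    have e3 : ∑ x ∈ P, (conv S B x) ^ 2 ≤ d * b + 2 * b ^ 2 := by
      refine le_trans ?_ (sumsq_conv S B h2)
      exact Finset.sum_le_sum_of_subset_of_nonneg (Finset.subset_univ _) (fun x _ _ => sq_nonneg _)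
    have e4 : ((1 - δ) * (d * b)) ^ 2 ≤ P.card * (d * b + 2 * b ^ 2) := by
      refine (pow_le_pow_left₀ ?_ e1 2).trans (e2.trans ?_)
      · have : 0 ≤ 1 - δ := by linarith
        positivity
      · gcongr
    have e5 : ((1 - δ) ^ 2 * d ^ 2 * b) * b ≤ (P.card * (d + 2 * b)) * b := by
      nlinarith
    exact le_of_mul_le_mul_right e5 hb0
  · set P : Finset (ZMod n) := univ.filter (fun x => θ ≤ conv S B x) with hP
    have e1 := five_conv S B hS h5 h4 hε hη hB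
    have e2 : ((zs P 5).card : ℝ) * θ ^ 5
        ≤ ∑ v : Fin 5 → ZMod n, (if ∑ i, v i = 0 then ∏ i, conv S B (v i) else 0) := by
      rw [← nsmul_eq_mul, ← Finset.sum_const]
      have h6 : ∀ v : Fin 5 → ZMod n, 0 ≤ (if ∑ i, v i = 0 then ∏ i, conv S B (v i) else 0) := by
        intro v
        split_ifs
        · exact Finset.prod_nonneg fun i _ => conv_nonneg S B _
        · exact le_rfl
      refine le_trans ?_ (Finset.sum_le_sum_of_subset_of_nonneg (Finset.subset_univ (zs P 5))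
        (fun v _ _ => h6 v))
      refine Finset.sum_le_sum fun v hv => ?_
      rw [zs, Finset.mem_filter] at hv
      rw [if_pos hv.2.2]
      have h7 : ∀ i, θ ≤ conv S B (v i) := by
        intro i
        have := hv.2.1 i
        rw [hP, Finset.mem_filter] at this
        exact this.2
      calc θ ^ 5 = ∏ _i : Fin 5, θ := by simp
        _ ≤ ∏ i, conv S B (v i) := Finset.prod_le_prod (fun i _ => hθ0.le) (fun i _ => h7 i)
    have e3 := e2.trans e1
    rw [hθ, div_pow, mul_div_assoc', div_le_iff₀ (by positivity)] at e3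
    have e4 : ((zs P 5).card : ℝ) * (δ ^ 5 * d ^ 2) * (d ^ 3 * b ^ 5)
        ≤ 3 * (5 * η + 2 * ε) * (n : ℝ) ^ 5 * (d ^ 3 * b ^ 5) := by
      calc ((zs P 5).card : ℝ) * (δ ^ 5 * d ^ 2) * (d ^ 3 * b ^ 5)
          = ((zs P 5).card : ℝ) * (δ * d * b) ^ 5 := by ring
        _ ≤ 3 * (5 * η + 2 * ε) * d ^ 3 * b ^ 5 * (n : ℝ) ^ 5 := e3
        _ = 3 * (5 * η + 2 * ε) * (n : ℝ) ^ 5 * (d ^ 3 * b ^ 5) := by ring
    exact le_of_mul_le_mul_right e4 (by positivity)

end Est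

end Pool.Agent.Helper591.Five
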