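import Mathlib

/-!
Fourier analysis on `ZMod n` used for five-fold sums of sparse sets.
-/

set_option linter.unusedSectionVars false

open Finset

namespace Pool.Agent.Helper591.Five

section Fourier

variable {n : ℕ} [NeZero n]

/-- the additive character used throughout -/
noncomputable abbrev psi (n : ℕ) [NeZero n] : AddChar (ZMod n) ℂ := ZMod.stdAddChar

/-- Fourier transform (unnormalised) -/
noncomputable def ft (f : ZMod n → ℂ) (r : ZMod n) : ℂ := ∑ x, f x * psi n (r * x)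

theorem sum_psi (b : ZMod n) : ∑ r : ZMod n, psi n (r * b) = if b = 0 then (n : ℂ) else 0 := by
  have h := AddChar.sum_mulShift (R := ZMod n) (R' := ℂ) b (ZMod.isPrimitive_stdAddChar n)
  rw [h, ZMod.card]
  split_ifs <;> simp

theorem norm_psi (x : ZMod n) : ‖psi n x‖ = 1 := by
  exact AddChar.norm_apply _ _

theorem psi_sum {k : ℕ} (g : Fin k → ZMod n) : psi n (∑ i, g i) = ∏ i, psi n (g i) := by
  have : ∀ s : Finset (Fin k), psi n (∑ i ∈ s, g i) = ∏ i ∈ s, psi n (g i) := by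
    intro s
    induction s using Finset.induction_on with
    | empty => simp
    | insert a s ha ih => rw [Finset.sum_insert ha, Finset.prod_insert ha, AddChar.map_add_eq_mul, ih]
  exact this _

/-- power sums of the Fourier transform count solutions -/
theorem sum_ft_pow (f : ZMod n → ℂ) (k : ℕ) :
    ∑ r, (ft f r) ^ k
      = n * ∑ v : Fin k → ZMod n, if ∑ i, v i = 0 then ∏ i, f (v i) else 0 := by
  unfold ft
  have h1 : ∀ r : ZMod n, (∑ x, f x * psi n (r * x)) ^ k
      = ∑ v : Fin k → ZMod n, (∏ i, f (v i)) * psi n (r * ∑ i, v i) := by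
    intro r
    rw [Fintype.sum_pow]
    refine Finset.sum_congr rfl fun v _ => ?_
    rw [Finset.prod_mul_distrib, Finset.mul_sum, psi_sum]
  simp_rw [h1]
  rw [Finset.sum_comm, Finset.mul_sum]
  refine Finset.sum_congr rfl fun v _ => ?_
  rw [← Finset.mul_sum, sum_psi]
  split_ifs <;> ring

/-- indicator function -/
def ind (S : Finset (ZMod n)) (x : ZMod n) : ℂ := if x ∈ S then 1 else 0

theorem ft_ind (S : Finset (ZMod n)) (r : ZMod n) : ft (ind S) r = ∑ s ∈ S, psi n (r * s) := by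
  unfold ft ind
  simp only [ite_mul, one_mul, zero_mul]
  rw [Finset.sum_ite_mem]
  simp

theorem norm_ft_ind_le (S : Finset (ZMod n)) (r : ZMod n) : ‖ft (ind S) r‖ ≤ S.card := by
  rw [ft_ind]
  refine (norm_sum_le _ _).trans ?_
  simp

/-- number of zero-sum `k`-tuples -/
def zs (S : Finset (ZMod n)) (k : ℕ) : Finset (Fin k → ZMod n) :=
  univ.filter (fun v => (∀ i, v i ∈ S) ∧ ∑ i, v i = 0)

theorem sum_ft_ind_pow (S : Finset (ZMod n)) (k : ℕ) :
    ∑ r, (ft (ind S) r) ^ k = n * ((zs S k).card : ℂ) := by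
  rw [sum_ft_pow]
  congr 1
  rw [zs, Finset.card_filter]
  push_cast
  refine Finset.sum_congr rfl fun v _ => ?_
  unfold ind
  by_cases h : ∑ i, v i = 0
  · simp only [h, if_true, and_true]
    by_cases h2 : ∀ i, v i ∈ S
    · simp [h2]
    · rw [if_neg h2]
      push Not at h2
      obtain ⟨i, hi⟩ := h2
      exact Finset.prod_eq_zero (Finset.mem_univ i) (by simp [hi])
  · simp [h]

/-- the transform of a symmetric set is real -/
theorem conj_ft_ind (S : Finset (ZMod n)) (hS : ∀ s ∈ S, -s ∈ S) (r : ZMod n) :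
    (starRingEnd ℂ) (ft (ind S) r) = ft (ind S) r := by
  rw [ft_ind, map_sum]
  refine Finset.sum_bij' (fun s _ => -s) (fun s _ => -s) (fun s hs => hS s hs)
    (fun s hs => hS s hs) (fun s _ => neg_neg s) (fun s _ => neg_neg s) ?_
  intro s _
  rw [← AddChar.map_neg_eq_conj, mul_neg]

theorem norm_pow_four (S : Finset (ZMod n)) (hS : ∀ s ∈ S, -s ∈ S) (r : ZMod n) :
    ((‖ft (ind S) r‖ ^ 4 : ℝ) : ℂ) = (ft (ind S) r) ^ 4 := by
  have h := conj_ft_ind S hS r
  have h2 : ((‖ft (ind S) r‖ ^ 2 : ℝ) : ℂ) = (ft (ind S) r) ^ 2 := by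
    have := Complex.mul_conj (ft (ind S) r)
    rw [h] at this
    rw [pow_two (ft (ind S) r), this, Complex.normSq_eq_norm_sq]
  have h3 : ((‖ft (ind S) r‖ ^ 4 : ℝ) : ℂ) = (((‖ft (ind S) r‖ ^ 2 : ℝ) : ℂ)) ^ 2 := by
    push_cast; ring
  rw [h3, h2]; ring

theorem sum_norm_four (S : Finset (ZMod n)) (hS : ∀ s ∈ S, -s ∈ S) :
    ∑ r, ‖ft (ind S) r‖ ^ 4 = n * ((zs S 4).card : ℝ) := by
  have h : ((∑ r, ‖ft (ind S) r‖ ^ 4 : ℝ) : ℂ) = ((n * ((zs S 4).card : ℝ) : ℝ) : ℂ) := by
    rw [Complex.ofReal_sum]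
    have : ∀ r ∈ (Finset.univ : Finset (ZMod n)), ((‖ft (ind S) r‖ ^ 4 : ℝ) : ℂ) = (ft (ind S) r) ^ 4 :=
      fun r _ => norm_pow_four S hS r
    rw [Finset.sum_congr rfl this, sum_ft_ind_pow]
    push_cast; ring
  exact_mod_cast h

/-- the convolution of two indicator functions, as a real function -/
def conv (S B : Finset (ZMod n)) (x : ZMod n) : ℝ :=
  ∑ s ∈ S, ∑ b ∈ B, if s + b = x then 1 else 0

theorem conv_nonneg (S B : Finset (ZMod n)) (x : ZMod n) : 0 ≤ conv S B x := by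
  unfold conv
  exact Finset.sum_nonneg fun s _ => Finset.sum_nonneg fun b _ => by split_ifs <;> norm_num

theorem ft_conv (S B : Finset (ZMod n)) (r : ZMod n) :
    ft (fun x => (conv S B x : ℂ)) r = ft (ind S) r * ft (ind B) r := by
  rw [ft_ind, ft_ind, Finset.sum_mul_sum]
  unfold ft conv
  have h : ∀ x : ZMod n, ((∑ s ∈ S, ∑ b ∈ B, if s + b = x then (1:ℝ) else 0 : ℝ) : ℂ) * psi n (r * x)
      = ∑ s ∈ S, ∑ b ∈ B, if s + b = x then psi n (r * x) else 0 := by
    intro x
    push_cast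
    rw [Finset.sum_mul]
    refine Finset.sum_congr rfl fun s _ => ?_
    rw [Finset.sum_mul]
    refine Finset.sum_congr rfl fun b _ => ?_
    split_ifs <;> simp
  simp_rw [h]
  rw [Finset.sum_comm]
  refine Finset.sum_congr rfl fun s _ => ?_
  rw [Finset.sum_comm]
  refine Finset.sum_congr rfl fun b _ => ?_
  rw [Finset.sum_ite_eq]
  simp only [Finset.mem_univ, if_true]
  rw [mul_add, AddChar.map_add_eq_mul]

theorem sum_conv (S B : Finset (ZMod n)) : ∑ x, conv S B x = S.card * B.card := by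
  unfold conv
  rw [Finset.sum_comm]
  have : ∀ s ∈ S, ∑ x : ZMod n, ∑ b ∈ B, (if s + b = x then (1:ℝ) else 0) = B.card := by
    intro s _
    rw [Finset.sum_comm]
    simp
  rw [Finset.sum_congr rfl this]
  simp

end Fourier

end Pool.Agent.Helper591.Five
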