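import Pool.Agent.Helper591.Five.Fourier

set_option linter.unusedSectionVars false

open Finset

namespace Pool.Agent.Helper591.Five

/-- `A` is `t`-independent in `ZMod n`: no signed combination of elements of `A` of total weight
between `1` and `t` vanishes -/
def Indep (n t : ℕ) (A : Finset (ZMod n)) : Prop :=
  ∀ c : ZMod n → ℤ, 1 ≤ ∑ a ∈ A, |c a| → ∑ a ∈ A, |c a| ≤ t → ∑ a ∈ A, c a • a ≠ 0

section Ind

variable {n : ℕ}

theorem indep_disj {t : ℕ} (ht : 2 ≤ t) {A : Finset (ZMod n)} (hA : Indep n t A)
    {a b : ZMod n} (ha : a ∈ A) (hb : b ∈ A) : a + b ≠ 0 := by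
  classical
  intro hab
  have h1 : ∑ x ∈ A, |((if x = a then 1 else 0) + (if x = b then 1 else 0) : ℤ)| = 2 := by
    have : ∀ x ∈ A, |((if x = a then 1 else 0) + (if x = b then 1 else 0) : ℤ)|
        = (if x = a then 1 else 0) + (if x = b then 1 else 0) := by
      intro x _
      apply abs_of_nonneg
      split_ifs <;> norm_num
    rw [Finset.sum_congr rfl this, Finset.sum_add_distrib, Finset.sum_ite_eq', Finset.sum_ite_eq',
      if_pos ha, if_pos hb]
    norm_num
  refine hA (fun x => (if x = a then 1 else 0) + (if x = b then 1 else 0)) (by rw [h1]; norm_num)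
    (by rw [h1]; exact_mod_cast ht) ?_
  simp only [add_smul, ite_smul, one_smul, zero_smul]
  rw [Finset.sum_add_distrib, Finset.sum_ite_eq', Finset.sum_ite_eq', if_pos ha, if_pos hb, hab]

variable [DecidableEq (ZMod n)]

/-- the symmetric set of a set -/
def sym (A : Finset (ZMod n)) : Finset (ZMod n) := A ∪ A.image (fun a => -a)

theorem mem_sym {A : Finset (ZMod n)} {x : ZMod n} : x ∈ sym A ↔ x ∈ A ∨ -x ∈ A := by
  unfold sym
  rw [Finset.mem_union, Finset.mem_image]
  constructor
  · rintro (h | ⟨a, ha, rfl⟩)
    · exact Or.inl h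
    · right; rwa [neg_neg]
  · rintro (h | h)
    · exact Or.inl h
    · exact Or.inr ⟨-x, h, neg_neg x⟩

theorem neg_mem_sym {A : Finset (ZMod n)} : ∀ s ∈ sym A, -s ∈ sym A := by
  intro s hs
  rw [mem_sym] at hs ⊢
  rw [neg_neg]
  exact hs.symm

theorem card_sym {t : ℕ} (ht : 2 ≤ t) {A : Finset (ZMod n)} (hA : Indep n t A) :
    (sym A).card = 2 * A.card := by
  unfold sym
  rw [Finset.card_union_of_disjoint, Finset.card_image_of_injective _ neg_injective]
  · ring
  · rw [Finset.disjoint_left]
    intro x hx hx'
    obtain ⟨b, hb, rfl⟩ := Finset.mem_image.1 hx'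
    exact indep_disj ht hA hx hb (neg_add_cancel b)

/-- in a vanishing signed sum of few elements everything cancels -/
theorem cancel {t k : ℕ} (ht : 2 ≤ t) (hk : k ≤ t) {A : Finset (ZMod n)} (hA : Indep n t A)
    (v : Fin k → ZMod n) (hv : ∀ i, v i ∈ sym A) (h0 : ∑ i, v i = 0) :
    ∀ a ∈ A, (univ.filter (fun i => v i = a)).card = (univ.filter (fun i => v i = -a)).card := by
  set c : ZMod n → ℤ := fun a => ∑ i, ((if v i = a then 1 else 0) - (if v i = -a then 1 else 0)) with hc
  have h1 : ∑ a ∈ A, |c a| ≤ k := by
    calc ∑ a ∈ A, |c a| ≤ ∑ a ∈ A, ∑ i, ((if v i = a then (1:ℤ) else 0) + (if v i = -a then 1 else 0)) := by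
          refine Finset.sum_le_sum fun a _ => ?_
          refine (Finset.abs_sum_le_sum_abs _ _).trans (Finset.sum_le_sum fun i _ => ?_)
          split_ifs <;> norm_num
      _ = ∑ i : Fin k, ∑ a ∈ A, ((if v i = a then (1:ℤ) else 0) + (if v i = -a then 1 else 0)) :=
          Finset.sum_comm
      _ ≤ ∑ i : Fin k, (1 : ℤ) := by
          refine Finset.sum_le_sum fun i _ => ?_
          rw [Finset.sum_add_distrib, Finset.sum_ite_eq]
          have e2 : ∑ a ∈ A, (if v i = -a then (1:ℤ) else 0) = if -v i ∈ A then 1 else 0 := by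
            have : ∀ a ∈ A, (if v i = -a then (1:ℤ) else 0) = if -v i = a then 1 else 0 := by
              intro a _
              have : (v i = -a) ↔ (-v i = a) := by
                constructor
                · intro h; rw [h, neg_neg]
                · intro h; rw [← h, neg_neg]
              by_cases hh : v i = -a
              · rw [if_pos hh, if_pos (this.1 hh)]
              · rw [if_neg hh, if_neg (fun h => hh (this.2 h))]
            rw [Finset.sum_congr rfl this, Finset.sum_ite_eq]
          rw [e2]
          by_cases h3 : v i ∈ A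
          · have h4 : -v i ∉ A := fun h => indep_disj ht hA h3 h (add_neg_cancel _)
            simp [h3, h4]
          · rw [if_neg h3]
            split_ifs <;> norm_num
      _ = k := by simp
  have h2 : ∑ a ∈ A, c a • a = 0 := by
    have e0 : ∑ a ∈ A, c a • a
        = ∑ i : Fin k, ∑ a ∈ A, ((if v i = a then a else 0) - (if v i = -a then a else 0)) := by
      rw [Finset.sum_comm]
      refine Finset.sum_congr rfl fun a _ => ?_
      rw [hc]
      simp only
      rw [Finset.sum_smul]
      refine Finset.sum_congr rfl fun i _ => ?_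
      rw [sub_smul, ite_smul, ite_smul]
      simp
    refine e0.trans (Eq.trans ?_ h0)
    refine Finset.sum_congr rfl fun i _ => ?_
    rw [Finset.sum_sub_distrib, Finset.sum_ite_eq]
    have e2 : ∑ a ∈ A, (if v i = -a then a else 0) = if -v i ∈ A then -v i else 0 := by
      have : ∀ a ∈ A, (if v i = -a then a else 0) = if -v i = a then a else 0 := by
        intro a _
        have : (v i = -a) ↔ (-v i = a) := by
          constructor
          · intro h; rw [h, neg_neg]
          · intro h; rw [← h, neg_neg]
        by_cases hh : v i = -a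
        · rw [if_pos hh, if_pos (this.1 hh)]
        · rw [if_neg hh, if_neg (fun h => hh (this.2 h))]
      rw [Finset.sum_congr rfl this, Finset.sum_ite_eq]
    rw [e2]
    have hvi := hv i
    rw [mem_sym] at hvi
    by_cases h3 : v i ∈ A
    · have h4 : -v i ∉ A := fun h => indep_disj ht hA h3 h (add_neg_cancel _)
      simp [h3, h4]
    · have h4 : -v i ∈ A := by tauto
      simp [h3, h4]
  have h3 : ¬ (1 ≤ ∑ a ∈ A, |c a|) := fun h => hA c h (h1.trans (by exact_mod_cast hk)) h2
  have h4 : ∑ a ∈ A, |c a| = 0 := by
    have : 0 ≤ ∑ a ∈ A, |c a| := Finset.sum_nonneg fun a _ => abs_nonneg _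
    omega
  intro a ha
  have h5 : |c a| = 0 := (Finset.sum_eq_zero_iff_of_nonneg (fun a _ => abs_nonneg (c a))).1 h4 a ha
  have h6 : c a = 0 := abs_eq_zero.1 h5
  rw [hc] at h6
  simp only at h6
  rw [Finset.sum_sub_distrib, Finset.sum_boole, Finset.sum_boole] at h6
  have h7 : ((univ.filter (fun i => v i = a)).card : ℤ) = (univ.filter (fun i => v i = -a)).card := by
    linarith
  exact_mod_cast h7

/-- a vanishing signed sum has an even number of terms -/
theorem even_of_zero {t k : ℕ} (ht : 2 ≤ t) (hk : k ≤ t) {A : Finset (ZMod n)} (hA : Indep n t A)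
    (v : Fin k → ZMod n) (hv : ∀ i, v i ∈ sym A) (h0 : ∑ i, v i = 0) : Even k := by
  have h := cancel ht hk hA v hv h0
  have h1 : k = ∑ a ∈ A, ((univ.filter (fun i => v i = a)).card + (univ.filter (fun i => v i = -a)).card) := by
    have e1 : (univ : Finset (Fin k)).card = k := by simp
    have e2 : ∀ a ∈ A, (univ.filter (fun i => v i = a)).card + (univ.filter (fun i => v i = -a)).card
        = (univ.filter (fun i => (if v i ∈ A then v i else -v i) = a)).card := by
      intro a ha
      rw [← Finset.card_union_of_disjoint]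
      · congr 1
        ext i
        simp only [Finset.mem_union, Finset.mem_filter, Finset.mem_univ, true_and]
        constructor
        · rintro (h | h)
          · rw [if_pos (by rw [h]; exact ha)]; exact h
          · have : v i ∉ A := by
              intro h3
              rw [h] at h3
              exact indep_disj ht hA h3 ha (neg_add_cancel a)
            rw [if_neg this, h, neg_neg]
        · intro h
          split_ifs at h with h3
          · exact Or.inl h
          · right; rw [← h, neg_neg]
      · rw [Finset.disjoint_left]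
        intro i hi hi'
        rw [Finset.mem_filter] at hi hi'
        have : a + a = 0 := by
          have := hi.2.symm.trans hi'.2
          nth_rewrite 1 [this]
          exact neg_add_cancel a
        exact indep_disj ht hA ha ha this
    rw [Finset.sum_congr rfl e2, ← Finset.card_eq_sum_card_fiberwise, e1]
    intro i _
    rw [Finset.mem_coe]
    show (if v i ∈ A then v i else -v i) ∈ A
    have := hv i
    rw [mem_sym] at this
    by_cases h3 : v i ∈ A
    · rw [if_pos h3]; exact h3
    · rw [if_neg h3]; tauto
  rw [h1]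
  refine Finset.even_sum _ fun a ha => ?_
  rw [h a ha]
  exact ⟨_, rfl⟩

/-- every element of a vanishing sum has an opposite partner -/
theorem partner {t k : ℕ} (ht : 2 ≤ t) (hk : k ≤ t) {A : Finset (ZMod n)} (hA : Indep n t A)
    (v : Fin k → ZMod n) (hv : ∀ i, v i ∈ sym A) (h0 : ∑ i, v i = 0) (i : Fin k) :
    ∃ j, v j = - v i := by
  have h := cancel ht hk hA v hv h0
  have hvi := hv i
  rw [mem_sym] at hvi
  rcases hvi with h1 | h1
  · have h2 := h _ h1
    have h3 : 0 < (univ.filter (fun j => v j = v i)).card :=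
      Finset.card_pos.2 ⟨i, by simp⟩
    rw [h2] at h3
    obtain ⟨j, hj⟩ := Finset.card_pos.1 h3
    exact ⟨j, (Finset.mem_filter.1 hj).2⟩
  · have h2 := h _ h1
    have h3 : 0 < (univ.filter (fun j => v j = - -v i)).card :=
      Finset.card_pos.2 ⟨i, by simp⟩
    rw [← h2] at h3
    obtain ⟨j, hj⟩ := Finset.card_pos.1 h3
    exact ⟨j, (Finset.mem_filter.1 hj).2⟩

/-- each nonzero difference has at most two representations -/
theorem diff_le_two {t : ℕ} (ht : 4 ≤ t) {A : Finset (ZMod n)} (hA : Indep n t A) (y : ZMod n)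
    (hy : y ≠ 0) : ((sym A ×ˢ sym A).filter (fun q => q.1 - q.2 = y)).card ≤ 2 := by
  by_cases hne : ((sym A ×ˢ sym A).filter (fun q => q.1 - q.2 = y)).Nonempty
  · obtain ⟨⟨s, s'⟩, hs⟩ := hne
    rw [Finset.mem_filter, Finset.mem_product] at hs
    obtain ⟨⟨h1, h2⟩, h3⟩ := hs
    simp only at h1 h2 h3
    have hsub : (sym A ×ˢ sym A).filter (fun q => q.1 - q.2 = y) ⊆ {(s, s'), (y - s, -s)} := by
      rintro ⟨u, u'⟩ hu
      rw [Finset.mem_filter, Finset.mem_product] at hu
      obtain ⟨⟨h4, h5⟩, h6⟩ := hu
      simp only at h4 h5 h6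
      have h7 : ∀ i, ![s, -s', -u, u'] i ∈ sym A := by
        intro i
        fin_cases i
        · exact h1
        · exact neg_mem_sym _ h2
        · exact neg_mem_sym _ h4
        · exact h5
      have h8 : ∑ i, ![s, -s', -u, u'] i = 0 := by
        rw [Fin.sum_univ_four]
        show s + -s' + -u + u' = 0
        linear_combination h3 - h6
      obtain ⟨j, hj⟩ := partner (by omega) ht hA _ h7 h8 0
      have hj' : ![s, -s', -u, u'] j = -s := hj
      rw [Finset.mem_insert, Finset.mem_singleton]
      fin_cases j
      · exfalso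
        have h9 : s = -s := hj'
        rw [mem_sym] at h1
        rcases h1 with h1 | h1
        · exact indep_disj (by omega) hA h1 h1 (by nth_rewrite 1 [h9]; exact neg_add_cancel s)
        · exact indep_disj (by omega) hA h1 h1 (by rw [← h9]; nth_rewrite 1 [h9]; exact neg_add_cancel s)
      · exfalso
        have h9 : -s' = -s := hj'
        exact hy (by rw [← h3, ← neg_inj.1 h9, sub_self])
      · have h9 : -u = -s := hj'
        left
        have h10 := neg_inj.1 h9
        refine Prod.ext h10 ?_
        have : u' = s' := by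
          rw [h10] at h6
          linear_combination h3 - h6
        exact this
      · have h9 : u' = -s := hj'
        right
        refine Prod.ext ?_ h9
        show u = y - s
        rw [h9] at h6
        linear_combination h6
    exact (Finset.card_le_card hsub).trans Finset.card_le_two
  · rw [Finset.not_nonempty_iff_eq_empty.1 hne]; simp

end Ind

section Count

variable {n : ℕ} [NeZero n]

theorem diff_zero_le (S : Finset (ZMod n)) : ((S ×ˢ S).filter (fun q => q.1 - q.2 = 0)).card ≤ S.card := by
  refine Finset.card_le_card_of_injOn (fun q => q.1) ?_ ?_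
  · intro q hq
    simp only [Finset.coe_filter, Finset.mem_product, Set.mem_ofPred_eq] at hq
    exact hq.1.1
  · intro q hq q' hq' h
    simp only [Finset.coe_filter, Finset.mem_product, Set.mem_ofPred_eq] at hq hq'
    have e1 := sub_eq_zero.1 hq.2
    have e2 := sub_eq_zero.1 hq'.2
    simp only at h
    exact Prod.ext h (by rw [← e1, ← e2, h])

/-- energy bound -/
theorem zs_four_le (S : Finset (ZMod n)) (hS : ∀ s ∈ S, -s ∈ S)
    (h2 : ∀ y : ZMod n, y ≠ 0 → ((S ×ˢ S).filter (fun q => q.1 - q.2 = y)).card ≤ 2) :
    (zs S 4).card ≤ 3 * S.card ^ 2 := by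
  have h1 : (zs S 4).card ≤ ((S ×ˢ S).sigma (fun q => (S ×ˢ S).filter (fun q' => q'.1 - q'.2 = q.1 - q.2))).card := by
    refine Finset.card_le_card_of_injOn (fun v => ⟨(v 0, -v 1), (-v 2, v 3)⟩) ?_ ?_
    · intro v hv
      rw [Finset.mem_coe, zs, Finset.mem_filter] at hv
      obtain ⟨-, h3, h4⟩ := hv
      rw [Fin.sum_univ_four] at h4
      rw [Finset.mem_coe, Finset.mem_sigma]
      simp only [Finset.mem_product, Finset.mem_filter]
      refine ⟨⟨h3 0, hS _ (h3 1)⟩, ⟨hS _ (h3 2), h3 3⟩, ?_⟩
      linear_combination -h4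
    · intro v _ w _ h
      simp only [Sigma.mk.injEq, Prod.mk.injEq, heq_eq_eq] at h
      obtain ⟨⟨e0, e1⟩, e2, e3⟩ := h
      have e1' := neg_inj.1 e1
      have e2' := neg_inj.1 e2
      refine funext fun i => ?_
      fin_cases i
      · exact e0
      · exact e1'
      · exact e2'
      · exact e3
  refine h1.trans ?_
  rw [Finset.card_sigma]
  have h3 : ∀ q ∈ S ×ˢ S, ((S ×ˢ S).filter (fun q' => q'.1 - q'.2 = q.1 - q.2)).card
      ≤ (if q.1 - q.2 = 0 then S.card else 0) + 2 := by
    intro q _
    by_cases hq : q.1 - q.2 = 0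
    · rw [if_pos hq, hq]
      exact (diff_zero_le S).trans (Nat.le_add_right _ _)
    · rw [if_neg hq, zero_add]
      exact h2 _ hq
  refine (Finset.sum_le_sum h3).trans ?_
  rw [Finset.sum_add_distrib, ← Finset.sum_filter, Finset.sum_const, Finset.sum_const, smul_eq_mul,
    smul_eq_mul, Finset.card_product]
  have := diff_zero_le S
  nlinarith

/-- the size of `S` is at most a constant times `√n` -/
theorem card_sq_le (S : Finset (ZMod n))
    (h2 : ∀ y : ZMod n, y ≠ 0 → ((S ×ˢ S).filter (fun q => q.1 - q.2 = y)).card ≤ 2) :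
    S.card ^ 2 ≤ 4 * n := by
  have h1 : S.card ^ 2 = ∑ y : ZMod n, ((S ×ˢ S).filter (fun q => q.1 - q.2 = y)).card := by
    rw [pow_two, ← Finset.card_product]
    exact Finset.card_eq_sum_card_fiberwise (fun _ _ => Finset.mem_coe.2 (Finset.mem_univ _))
  have h3 : S.card ^ 2 ≤ S.card + 2 * n := by
    rw [h1]
    have : ∀ y ∈ (univ : Finset (ZMod n)), ((S ×ˢ S).filter (fun q => q.1 - q.2 = y)).card
        ≤ (if y = 0 then S.card else 0) + 2 := by
      intro y _
      by_cases hy : y = 0
      · rw [if_pos hy, hy]
        exact (diff_zero_le S).trans (Nat.le_add_right _ _)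
      · rw [if_neg hy, zero_add]; exact h2 _ hy
    refine (Finset.sum_le_sum this).trans ?_
    rw [Finset.sum_add_distrib, Finset.sum_ite_eq', Finset.sum_const, Finset.card_univ, ZMod.card]
    simp
    linarith
  have hn : 0 < n := Nat.pos_of_ne_zero (NeZero.ne n)
  rcases Nat.lt_or_ge S.card 2 with h | h
  · interval_cases S.card
    · omega
    · omega
  · nlinarith

end Count

end Pool.Agent.Helper591.Five
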