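import Pool.Agent.Helper591.Removal
import Pool.Agent.Helper591.Five.Fourier

set_option linter.unusedSectionVars false

open Finset
open scoped Pointwise

namespace Pool.Agent.Helper591.Five

open Pool.Agent.Helper591.Removal

/-- the six ways to write `7` -/
theorem six_ways : ∀ i j k : ZMod 8, (i = 1 ∨ i = 2 ∨ i = 4) → (j = 1 ∨ j = 2 ∨ j = 4) →
    (k = 1 ∨ k = 2 ∨ k = 4) → i + j + k = 7 →
    (i = 1 ∧ j = 2 ∧ k = 4) ∨ (i = 2 ∧ j = 1 ∧ k = 4) ∨ (i = 1 ∧ j = 4 ∧ k = 2) ∨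
    (i = 4 ∧ j = 1 ∧ k = 2) ∨ (i = 2 ∧ j = 4 ∧ k = 1) ∨ (i = 4 ∧ j = 2 ∧ k = 1) := by
  intro i j k hi hj hk
  rcases hi with rfl | rfl | rfl <;> rcases hj with rfl | rfl | rfl <;>
    rcases hk with rfl | rfl | rfl <;> decide

/-- removal lemma for three different sets -/
theorem removal3 {ε : ℝ} (hε : 0 < ε) : ∃ δ : ℝ, 0 < δ ∧ ∀ (G : Type) [AddCommGroup G] [Fintype G]
    [DecidableEq G] (X Y Z : Finset G) (x : G),
    (((X ×ˢ Y).filter (fun p => x - p.1 - p.2 ∈ Z)).card : ℝ) < δ * (Fintype.card G : ℝ) ^ 2 →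
    ∃ X' ⊆ X, ∃ Y' ⊆ Y, ∃ Z' ⊆ Z, ((X \ X').card : ℝ) < ε * Fintype.card G ∧
      ((Y \ Y').card : ℝ) < ε * Fintype.card G ∧ ((Z \ Z').card : ℝ) < ε * Fintype.card G ∧
      ∀ a ∈ X', ∀ b ∈ Y', ∀ c ∈ Z', a + b + c ≠ x := by
  obtain ⟨δ, hδ, H⟩ := removal (ε := ε / 8) (by positivity)
  refine ⟨δ, hδ, ?_⟩
  intro G _ _ _ X Y Z x hlt
  classical
  let A : Finset (G × ZMod 8) := X ×ˢ {1} ∪ Y ×ˢ {2} ∪ Z ×ˢ {4}
  have memA : ∀ a : G, ∀ i : ZMod 8, (a, i) ∈ A ↔ (a ∈ X ∧ i = 1) ∨ (a ∈ Y ∧ i = 2) ∨ (a ∈ Z ∧ i = 4) := by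
    intro a i
    simp only [A, Finset.mem_union, Finset.mem_product, Finset.mem_singleton]
    tauto
  have n12 : (1 : ZMod 8) ≠ 2 := by decide
  have n14 : (1 : ZMod 8) ≠ 4 := by decide
  have n24 : (2 : ZMod 8) ≠ 4 := by decide
  have cX : ∀ a, (a, (1 : ZMod 8)) ∈ A ↔ a ∈ X := by
    intro a; rw [memA]; simp [n12, n14]
  have cY : ∀ a, (a, (2 : ZMod 8)) ∈ A ↔ a ∈ Y := by
    intro a; rw [memA]; simp [n12.symm, n24]
  have cZ : ∀ a, (a, (4 : ZMod 8)) ∈ A ↔ a ∈ Z := by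
    intro a; rw [memA]; simp [n14.symm, n24.symm]
  set N := (X ×ˢ Y).filter (fun p => x - p.1 - p.2 ∈ Z) with hN
  let g : (G × ZMod 8) × (G × ZMod 8) → (ZMod 8 × ZMod 8) × (G × G) := fun p =>
    ((p.1.2, p.2.2),
      (if p.1.2 = 1 then p.1.1 else if p.2.2 = 1 then p.2.1 else x - p.1.1 - p.2.1,
       if p.1.2 = 2 then p.1.1 else if p.2.2 = 2 then p.2.1 else x - p.1.1 - p.2.1))
  have key : ∀ p ∈ sols A (x, (7 : ZMod 8)),
      (p.1.2 = 1 ∧ p.2.2 = 2 ∧ p.1.1 ∈ X ∧ p.2.1 ∈ Y ∧ x - p.1.1 - p.2.1 ∈ Z) ∨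
      (p.1.2 = 2 ∧ p.2.2 = 1 ∧ p.1.1 ∈ Y ∧ p.2.1 ∈ X ∧ x - p.1.1 - p.2.1 ∈ Z) ∨
      (p.1.2 = 1 ∧ p.2.2 = 4 ∧ p.1.1 ∈ X ∧ p.2.1 ∈ Z ∧ x - p.1.1 - p.2.1 ∈ Y) ∨
      (p.1.2 = 4 ∧ p.2.2 = 1 ∧ p.1.1 ∈ Z ∧ p.2.1 ∈ X ∧ x - p.1.1 - p.2.1 ∈ Y) ∨
      (p.1.2 = 2 ∧ p.2.2 = 4 ∧ p.1.1 ∈ Y ∧ p.2.1 ∈ Z ∧ x - p.1.1 - p.2.1 ∈ X) ∨
      (p.1.2 = 4 ∧ p.2.2 = 2 ∧ p.1.1 ∈ Z ∧ p.2.1 ∈ Y ∧ x - p.1.1 - p.2.1 ∈ X) := by
    rintro ⟨⟨a, i⟩, ⟨b, j⟩⟩ hp
    unfold sols at hp
    rw [Finset.mem_filter, Finset.mem_product] at hp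
    obtain ⟨⟨h1, h2⟩, h3⟩ := hp
    simp only at h1 h2
    have h3' : (x - a - b, (7 : ZMod 8) - i - j) ∈ A := by simpa using h3
    have hi : i = 1 ∨ i = 2 ∨ i = 4 := by
      rw [memA] at h1; tauto
    have hj : j = 1 ∨ j = 2 ∨ j = 4 := by
      rw [memA] at h2; tauto
    have hk : (7 - i - j = 1 ∨ 7 - i - j = 2 ∨ 7 - i - j = 4) := by
      rw [memA] at h3'; tauto
    rcases six_ways i j (7 - i - j) hi hj hk (by ring) with h | h | h | h | h | h
    · obtain ⟨rfl, rfl, h6⟩ := h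
      rw [h6] at h3'
      exact Or.inl ⟨rfl, rfl, (cX a).1 h1, (cY b).1 h2, (cZ _).1 h3'⟩
    · obtain ⟨rfl, rfl, h6⟩ := h
      rw [h6] at h3'
      exact Or.inr (Or.inl ⟨rfl, rfl, (cY a).1 h1, (cX b).1 h2, (cZ _).1 h3'⟩)
    · obtain ⟨rfl, rfl, h6⟩ := h
      rw [h6] at h3'
      exact Or.inr (Or.inr (Or.inl ⟨rfl, rfl, (cX a).1 h1, (cZ b).1 h2, (cY _).1 h3'⟩))
    · obtain ⟨rfl, rfl, h6⟩ := h
      rw [h6] at h3'
      exact Or.inr (Or.inr (Or.inr (Or.inl ⟨rfl, rfl, (cZ a).1 h1, (cX b).1 h2, (cY _).1 h3'⟩)))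
    · obtain ⟨rfl, rfl, h6⟩ := h
      rw [h6] at h3'
      exact Or.inr (Or.inr (Or.inr (Or.inr (Or.inl
        ⟨rfl, rfl, (cY a).1 h1, (cZ b).1 h2, (cX _).1 h3'⟩))))
    · obtain ⟨rfl, rfl, h6⟩ := h
      rw [h6] at h3'
      exact Or.inr (Or.inr (Or.inr (Or.inr (Or.inr
        ⟨rfl, rfl, (cZ a).1 h1, (cY b).1 h2, (cX _).1 h3'⟩))))
  have hcard : (sols A (x, (7 : ZMod 8))).card ≤ 64 * N.card := by
    have : 64 * N.card = ((univ : Finset (ZMod 8 × ZMod 8)) ×ˢ N).card := by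
      rw [Finset.card_product, Finset.card_univ, Fintype.card_prod, ZMod.card]
    rw [this]
    refine Finset.card_le_card_of_injOn g ?_ ?_
    · intro p hp
      have hp' := key p (Finset.mem_coe.1 hp)
      rw [Finset.mem_coe, Finset.mem_product]
      refine ⟨Finset.mem_univ _, ?_⟩
      rw [hN, Finset.mem_filter, Finset.mem_product]
      rcases hp' with h | h | h | h | h | h
      · obtain ⟨h1, h2, h3, h4, h5⟩ := h
        simp only [g, h1, h2, if_true, if_neg n12, if_neg n12.symm]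
        exact ⟨⟨h3, h4⟩, h5⟩
      · obtain ⟨h1, h2, h3, h4, h5⟩ := h
        simp only [g, h1, h2, if_true, if_neg n12, if_neg n12.symm]
        refine ⟨⟨h4, h3⟩, ?_⟩
        have : x - p.2.1 - p.1.1 = x - p.1.1 - p.2.1 := by abel
        rw [this]; exact h5
      · obtain ⟨h1, h2, h3, h4, h5⟩ := h
        simp only [g, h1, h2, if_true, if_neg n12, if_neg n24.symm]
        refine ⟨⟨h3, h5⟩, ?_⟩
        have : x - p.1.1 - (x - p.1.1 - p.2.1) = p.2.1 := by abel
        rw [this]; exact h4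
      · obtain ⟨h1, h2, h3, h4, h5⟩ := h
        simp only [g, h1, h2, if_true, if_neg n14.symm, if_neg n12, if_neg n24.symm]
        refine ⟨⟨h4, h5⟩, ?_⟩
        have : x - p.2.1 - (x - p.1.1 - p.2.1) = p.1.1 := by abel
        rw [this]; exact h3
      · obtain ⟨h1, h2, h3, h4, h5⟩ := h
        simp only [g, h1, h2, if_true, if_neg n12.symm, if_neg n14.symm]
        refine ⟨⟨h5, h3⟩, ?_⟩
        have : x - (x - p.1.1 - p.2.1) - p.1.1 = p.2.1 := by abel
        rw [this]; exact h4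
      · obtain ⟨h1, h2, h3, h4, h5⟩ := h
        simp only [g, h1, h2, if_true, if_neg n12.symm, if_neg n14.symm, if_neg n24.symm]
        refine ⟨⟨h5, h4⟩, ?_⟩
        have : x - (x - p.1.1 - p.2.1) - p.2.1 = p.1.1 := by abel
        rw [this]; exact h3
    · intro p hp q hq hpq
      have hp' := key p (Finset.mem_coe.1 hp)
      have hq' := key q (Finset.mem_coe.1 hq)
      have e0 := congrArg Prod.fst hpq
      have e1 := congrArg (fun t => t.2.1) hpq
      have e2 := congrArg (fun t => t.2.2) hpq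
      simp only [g, Prod.mk.injEq] at e0
      obtain ⟨e3, e4⟩ := e0
      simp only [g] at e1 e2
      rcases hp' with h | h | h | h | h | h
      · obtain ⟨h1, h2, -⟩ := h
        rw [← e3, ← e4, h1, h2] at e1 e2
        simp only [if_true, if_neg n12, if_neg n12.symm] at e1 e2
        exact Prod.ext (Prod.ext e1 e3) (Prod.ext e2 e4)
      · obtain ⟨h1, h2, -⟩ := h
        rw [← e3, ← e4, h1, h2] at e1 e2
        simp only [if_true, if_neg n12, if_neg n12.symm] at e1 e2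
        exact Prod.ext (Prod.ext e2 e3) (Prod.ext e1 e4)
      · obtain ⟨h1, h2, -⟩ := h
        rw [← e3, ← e4, h1, h2] at e1 e2
        simp only [if_true, if_neg n12, if_neg n24.symm] at e1 e2
        refine Prod.ext (Prod.ext e1 e3) (Prod.ext ?_ e4)
        rw [e1] at e2
        exact sub_right_injective e2
      · obtain ⟨h1, h2, -⟩ := h
        rw [← e3, ← e4, h1, h2] at e1 e2
        simp only [if_true, if_neg n14.symm, if_neg n12, if_neg n24.symm] at e1 e2
        refine Prod.ext (Prod.ext ?_ e3) (Prod.ext e1 e4)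
        rw [e1] at e2
        have := sub_left_injective e2
        exact sub_right_injective this
      · obtain ⟨h1, h2, -⟩ := h
        rw [← e3, ← e4, h1, h2] at e1 e2
        simp only [if_true, if_neg n12.symm, if_neg n14.symm] at e1 e2
        refine Prod.ext (Prod.ext e2 e3) (Prod.ext ?_ e4)
        rw [e2] at e1
        exact sub_right_injective e1
      · obtain ⟨h1, h2, -⟩ := h
        rw [← e3, ← e4, h1, h2] at e1 e2
        simp only [if_true, if_neg n12.symm, if_neg n14.symm, if_neg n24.symm] at e1 e2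
        refine Prod.ext (Prod.ext ?_ e3) (Prod.ext e2 e4)
        rw [e2] at e1
        have := sub_left_injective e1
        exact sub_right_injective this
  have hlt' : ((sols A (x, (7 : ZMod 8))).card : ℝ) < δ * (Fintype.card (G × ZMod 8) : ℝ) ^ 2 := by
    have h1 : ((sols A (x, (7 : ZMod 8))).card : ℝ) ≤ 64 * N.card := by exact_mod_cast hcard
    rw [Fintype.card_prod, ZMod.card]
    push_cast
    nlinarith
  obtain ⟨A', hA', hA1, hA2⟩ := H (G × ZMod 8) A (x, 7) hlt'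
  rw [Fintype.card_prod, ZMod.card] at hA1
  push_cast at hA1
  have hA1' : ((A \ A').card : ℝ) < ε * Fintype.card G := by linarith
  have gen : ∀ (W : Finset G) (i : ZMod 8), (∀ a ∈ W, (a, i) ∈ A) →
      ((W \ W.filter (fun a => (a, i) ∈ A')).card : ℝ) < ε * Fintype.card G := by
    intro W i hW
    refine lt_of_le_of_lt ?_ hA1'
    have : (W \ W.filter (fun a => (a, i) ∈ A')).card ≤ (A \ A').card := by
      refine Finset.card_le_card_of_injOn (fun a => (a, i)) ?_ ?_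
      · intro a ha
        rw [Finset.mem_coe, Finset.mem_sdiff, Finset.mem_filter] at ha
        rw [Finset.mem_coe, Finset.mem_sdiff]
        exact ⟨hW a ha.1, fun h => ha.2 ⟨ha.1, h⟩⟩
      · intro a _ b _ h
        exact (Prod.ext_iff.1 h).1
    exact_mod_cast this
  refine ⟨X.filter (fun a => (a, (1 : ZMod 8)) ∈ A'), Finset.filter_subset _ _,
    Y.filter (fun a => (a, (2 : ZMod 8)) ∈ A'), Finset.filter_subset _ _,
    Z.filter (fun a => (a, (4 : ZMod 8)) ∈ A'), Finset.filter_subset _ _,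
    gen X 1 (fun a ha => (cX a).2 ha), gen Y 2 (fun a ha => (cY a).2 ha),
    gen Z 4 (fun a ha => (cZ a).2 ha), ?_⟩
  intro a ha b hb c hc habc
  rw [Finset.mem_filter] at ha hb hc
  refine hA2 _ ha.2 _ hb.2 _ hc.2 ?_
  refine Prod.ext habc ?_
  show (1 : ZMod 8) + 2 + 4 = 7
  decide

/-- a set with few zero-sum five-tuples in `ZMod p` has density at most `1/5` -/
theorem robust {γ : ℝ} (hγ : 0 < γ) : ∃ κ : ℝ, 0 < κ ∧ ∃ p0 : ℕ, ∀ (p : ℕ) [Fact p.Prime],
    p0 ≤ p → ∀ P : Finset (ZMod p), ((zs P 5).card : ℝ) ≤ κ * (p : ℝ) ^ 4 →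
    (P.card : ℝ) ≤ (1 / 5 + γ) * p := by
  set ε : ℝ := min (γ / 4) (1 / 20) with hε
  have hε0 : 0 < ε := by rw [hε]; exact lt_min (by linarith) (by norm_num)
  have hε1 : ε ≤ γ / 4 := min_le_left _ _
  have hε2 : ε ≤ 1 / 20 := min_le_right _ _
  obtain ⟨δ, hδ, H⟩ := removal3 hε0
  set l : ℝ := δ / 2 with hl
  have hl0 : 0 < l := by rw [hl]; linarith
  obtain ⟨p1, hp1⟩ := exists_nat_gt (6 / (5 * γ))
  obtain ⟨p2, hp2⟩ := exists_nat_gt (10 : ℝ)
  refine ⟨l ^ 2 * δ / 2, by positivity, max p1 p2, ?_⟩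
  intro p hpf hpp P hP
  have hp : p.Prime := hpf.out
  have hp0 : (0 : ℝ) < p := by exact_mod_cast hp.pos
  have hpp1 : (p1 : ℝ) ≤ p := by exact_mod_cast (le_max_left _ _).trans hpp
  have hpp2 : (p2 : ℝ) ≤ p := by exact_mod_cast (le_max_right _ _).trans hpp
  by_contra hcon
  push Not at hcon
  have hγp : 6 / 5 < γ * p := by
    have : 6 / (5 * γ) < p := by linarith
    rw [div_lt_iff₀ (by positivity)] at this
    nlinarith
  -- popular sums
  let rep : ZMod p → Finset (ZMod p × ZMod p) := fun y => (P ×ˢ P).filter (fun q => q.1 + q.2 = y)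
  let Q : Finset (ZMod p) := univ.filter (fun y => l * p ≤ ((rep y).card : ℝ))
  let Z : Finset (ZMod p) := univ.filter (fun z => -z ∉ Q)
  have c1 : (((P ×ˢ P).filter (fun q => 0 - q.1 - q.2 ∈ Z)).card : ℝ)
      < δ * (Fintype.card (ZMod p) : ℝ) ^ 2 := by
    rw [ZMod.card]
    have e1 : ((P ×ˢ P).filter (fun q => 0 - q.1 - q.2 ∈ Z)).card
        = ∑ y ∈ univ.filter (fun y => y ∉ Q), (rep y).card := by
      rw [Finset.card_eq_sum_card_fiberwise (f := fun q : ZMod p × ZMod p => q.1 + q.2)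
        (t := univ.filter (fun y => y ∉ Q))]
      · refine Finset.sum_congr rfl fun y hy => ?_
        congr 1
        ext q
        simp only [Finset.mem_filter, rep, Z, Finset.mem_univ, true_and] at hy ⊢
        constructor
        · rintro ⟨⟨h1, -⟩, h3⟩; exact ⟨h1, h3⟩
        · rintro ⟨h1, h3⟩
          refine ⟨⟨h1, ?_⟩, h3⟩
          have : -(0 - q.1 - q.2) = y := by rw [← h3]; ring
          rw [this]; exact hy
      · intro q hq
        simp only [Finset.coe_filter, Z, Finset.mem_filter, Finset.mem_univ, true_and,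
          Set.mem_ofPred_eq] at hq ⊢
        have : -(0 - q.1 - q.2) = q.1 + q.2 := by ring
        rw [this] at hq
        exact hq.2
    have e2 : ∀ y ∈ univ.filter (fun y => y ∉ Q), ((rep y).card : ℝ) ≤ l * p := by
      intro y hy
      simp only [Q, Finset.mem_filter, Finset.mem_univ, true_and, not_le] at hy
      exact hy.le
    rw [e1]
    push_cast
    refine lt_of_le_of_lt (Finset.sum_le_sum e2) ?_
    rw [Finset.sum_const, nsmul_eq_mul]
    have e3 : ((univ.filter (fun y => y ∉ Q)).card : ℝ) ≤ p := by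
      have := Finset.card_le_univ (univ.filter (fun y => y ∉ Q))
      rw [ZMod.card] at this
      exact_mod_cast this
    have e4 : (0 : ℝ) < l * p := by positivity
    nlinarith [mul_le_mul_of_nonneg_right e3 e4.le]
  obtain ⟨P1, hP1, P2, hP2, Z', hZ', a1, a2, a3, a4⟩ := H (ZMod p) P P Z 0 c1
  rw [ZMod.card] at a1 a2 a3
  have c2 : (((Q ×ˢ Q).filter (fun q => 0 - q.1 - q.2 ∈ P)).card : ℝ)
      < δ * (Fintype.card (ZMod p) : ℝ) ^ 2 := by
    rw [ZMod.card]
    set N := (Q ×ˢ Q).filter (fun q => 0 - q.1 - q.2 ∈ P) with hN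
    have e1 : (N.sigma (fun q => rep q.1 ×ˢ rep q.2)).card ≤ (zs P 5).card := by
      refine Finset.card_le_card_of_injOn
        (fun t => ![t.2.1.1, t.2.1.2, t.2.2.1, t.2.2.2, 0 - t.1.1 - t.1.2]) ?_ ?_
      · rintro ⟨⟨y, y'⟩, ⟨⟨a, b⟩, ⟨c, d⟩⟩⟩ ht
        simp only [Finset.coe_sigma, Set.mem_sigma_iff, Finset.mem_coe, hN, Finset.mem_filter,
          Finset.mem_product, rep] at ht
        obtain ⟨⟨⟨h1, h2⟩, h3⟩, ⟨⟨h4, h5⟩, h6⟩, ⟨⟨h7, h8⟩, h9⟩⟩ := ht
        rw [Finset.mem_coe, zs, Finset.mem_filter]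
        refine ⟨Finset.mem_univ _, ?_, ?_⟩
        · intro i
          fin_cases i
          · exact h4
          · exact h5
          · exact h7
          · exact h8
          · exact h3
        · simp only [Fin.sum_univ_five]
          show a + b + c + d + (0 - y - y') = 0
          rw [← h6, ← h9]; ring
      · rintro ⟨⟨y, y'⟩, ⟨⟨a, b⟩, ⟨c, d⟩⟩⟩ ht ⟨⟨z, z'⟩, ⟨⟨a', b'⟩, ⟨c', d'⟩⟩⟩ ht' h
        simp only [Finset.coe_sigma, Set.mem_sigma_iff, Finset.mem_coe, hN, Finset.mem_filter,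
          Finset.mem_product, rep] at ht ht'
        have h0 := congrFun h 0
        have h1 := congrFun h 1
        have h2 := congrFun h 2
        have h3 := congrFun h 3
        simp only [Matrix.cons_val] at h0 h1 h2 h3
        subst h0 h1 h2 h3
        have hy : y = z := by rw [← ht.2.1.2, ← ht'.2.1.2]
        have hy' : y' = z' := by rw [← ht.2.2.2, ← ht'.2.2.2]
        subst hy hy'
        rfl
    have e2 : (N.card : ℝ) * (l * p) ^ 2 ≤ ((N.sigma (fun q => rep q.1 ×ˢ rep q.2)).card : ℝ) := by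
      rw [Finset.card_sigma, ← nsmul_eq_mul, ← Finset.sum_const]
      push_cast
      refine Finset.sum_le_sum fun q hq => ?_
      rw [hN, Finset.mem_filter, Finset.mem_product] at hq
      have h1 := hq.1.1
      have h2 := hq.1.2
      simp only [Q, Finset.mem_filter, Finset.mem_univ, true_and] at h1 h2
      rw [Finset.card_product]
      push_cast
      rw [pow_two]
      have : (0 : ℝ) < l * p := by positivity
      exact mul_le_mul h1 h2 this.le (this.le.trans h1)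
    have e3 : ((N.sigma (fun q => rep q.1 ×ˢ rep q.2)).card : ℝ) ≤ ((zs P 5).card : ℝ) := by
      exact_mod_cast e1
    have e4 : (N.card : ℝ) * (l * p) ^ 2 ≤ (δ / 2 * (p : ℝ) ^ 2) * (l * p) ^ 2 := by
      refine (e2.trans (e3.trans hP)).trans (le_of_eq ?_)
      ring
    have e5 := le_of_mul_le_mul_right e4 (by positivity)
    nlinarith [sq_nonneg (p : ℝ), mul_pos hδ (pow_pos hp0 2)]
  obtain ⟨Q1, hQ1, Q2, hQ2, P3, hP3, b1, b2, b3, b4⟩ := H (ZMod p) Q Q P 0 c2
  rw [ZMod.card] at b1 b2 b3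
  -- sizes
  have card_sd : ∀ (U V : Finset (ZMod p)), V ⊆ U → ((U \ V).card : ℝ) = U.card - V.card := by
    intro U V h
    rw [Finset.card_sdiff_of_subset h, Nat.cast_sub (Finset.card_le_card h)]
  rw [card_sd _ _ hP1] at a1
  rw [card_sd _ _ hP2] at a2
  rw [card_sd _ _ hZ'] at a3
  rw [card_sd _ _ hQ1] at b1
  rw [card_sd _ _ hQ2] at b2
  rw [card_sd _ _ hP3] at b3
  have hZc : (Z.card : ℝ) = p - Q.card := by
    have h1 : Z.card = (univ.filter (fun y => y ∉ Q)).card := by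
      refine Finset.card_bij' (fun z _ => -z) (fun z _ => -z) ?_ ?_ ?_ ?_
      · intro z hz; simpa [Z] using hz
      · intro z hz; simpa [Z] using hz
      · intro z _; exact neg_neg z
      · intro z _; exact neg_neg z
    have h2 : (univ.filter (fun y => y ∉ Q)).card + Q.card = p := by
      have h3 : univ.filter (fun y => y ∉ Q) = Qᶜ := by ext y; simp
      rw [h3, Finset.card_compl_add_card, ZMod.card]
    have h4 : ((univ.filter (fun y => y ∉ Q)).card : ℝ) + Q.card = p := by exact_mod_cast h2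
    rw [h1]; linarith
  have compl : ∀ (U V W : Finset (ZMod p)), (∀ a ∈ U, ∀ b ∈ V, ∀ c ∈ W, a + b + c ≠ 0) →
      ((U + V).card : ℝ) + W.card ≤ p := by
    intro U V W h
    have h1 : (U + V).card + (W.image (fun w => -w)).card ≤ p := by
      rw [← Finset.card_union_of_disjoint]
      · have := Finset.card_le_univ ((U + V) ∪ W.image (fun w => -w))
        rwa [ZMod.card] at this
      · rw [Finset.disjoint_left]
        intro x hx hx'
        obtain ⟨a, ha, b, hb, rfl⟩ := Finset.mem_add.1 hx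
        obtain ⟨c, hc, hc'⟩ := Finset.mem_image.1 hx'
        exact h a ha b hb c hc (by rw [← hc']; ring)
    rw [Finset.card_image_of_injective _ neg_injective] at h1
    exact_mod_cast h1
  have hA := compl _ _ _ a4
  have hB := compl _ _ _ b4
  have cd : ∀ (U V : Finset (ZMod p)), (0 : ℝ) < U.card → (0 : ℝ) < V.card →
      min (p : ℝ) (U.card + V.card - 1) ≤ (U + V).card := by
    intro U V hU hV
    have hU' : 0 < U.card := by exact_mod_cast hU
    have hV' : 0 < V.card := by exact_mod_cast hV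
    have h1 := ZMod.cauchy_davenport hp (Finset.card_pos.1 hU') (Finset.card_pos.1 hV')
    have h2 : ((min p (U.card + V.card - 1) : ℕ) : ℝ) ≤ ((U + V).card : ℝ) := by exact_mod_cast h1
    have h3 : ((U.card + V.card - 1 : ℕ) : ℝ) = U.card + V.card - 1 := by
      rw [Nat.cast_sub (by omega)]; push_cast; ring
    rw [Nat.cast_min, h3] at h2
    exact h2
  have hp10 : (10 : ℝ) < p := by linarith
  have hPl : (p : ℝ) / 5 < P.card := by nlinarith
  have q1 := cd P1 P2 (by nlinarith) (by nlinarith)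
  -- Q is large
  have hQl : (2 : ℝ) * P.card - 3 * ε * p - 1 ≤ Q.card ∨ (1 - ε) * p ≤ Q.card := by
    rcases min_cases (p : ℝ) (P1.card + P2.card - 1) with ⟨h, -⟩ | ⟨h, -⟩
    · right; rw [h] at q1; nlinarith
    · left; rw [h] at q1; nlinarith
  have hQp : (p : ℝ) / 10 < Q.card := by
    rcases hQl with h | h
    · nlinarith
    · nlinarith
  have q2 := cd Q1 Q2 (by nlinarith) (by nlinarith)
  have hP3 : (0 : ℝ) < P3.card := by nlinarith
  rcases min_cases (p : ℝ) (Q1.card + Q2.card - 1) with ⟨h, -⟩ | ⟨h, -⟩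
  · rw [h] at q2; nlinarith
  · rw [h] at q2
    rcases hQl with h' | h'
    · nlinarith
    · nlinarith

end Pool.Agent.Helper591.Five
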