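import Pool.Agent.Helper591.Five.Est
import Pool.Agent.Helper591.Five.Bohr
import Pool.Agent.Helper591.Five.Robust
import Pool.Agent.Helper591.Five.Ind

set_option linter.unusedSectionVars false

open Finset

namespace Pool.Agent.Helper591.Five

/-- upper bound for the size of `5`-independent sets modulo a prime -/
theorem prime_upper {γ : ℝ} (hγ : 0 < γ) (hγ1 : γ ≤ 1) : ∃ p0 : ℕ, ∀ (p : ℕ) [Fact p.Prime],
    p0 ≤ p → ∀ A : Finset (ZMod p), Indep p 5 A → (2 * (A.card : ℝ)) ^ 2 ≤ (2 / 5 + γ) * p := by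
  obtain ⟨κ, hκ, p1, hrob⟩ := robust (γ := γ / 4) (by positivity)
  set δ : ℝ := γ / 10 with hδ
  have hδ0 : 0 < δ := by positivity
  have hδ1 : δ < 1 := by rw [hδ]; linarith
  set θ : ℝ := 2 / 15 * κ * δ ^ 5 with hθ
  have hθ0 : 0 < θ := by positivity
  set ε : ℝ := θ / 4 with hε
  set η : ℝ := θ / 10 with hη
  have hε0 : 0 < ε := by positivity
  have hη0 : 0 < η := by positivity
  obtain ⟨k, hk⟩ := exists_nat_gt (2 * Real.pi / η)
  have hk0 : (0 : ℝ) < k := lt_trans (by positivity) hk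
  have hk0' : 0 < k := by exact_mod_cast hk0
  have hkη : 2 * Real.pi / k ≤ η := by
    rw [div_lt_iff₀ hη0] at hk
    rw [div_le_iff₀ hk0]; linarith
  obtain ⟨K, hK⟩ := exists_nat_gt (15 / (2 * ε ^ 4))
  obtain ⟨p2, hp2⟩ := exists_nat_gt (4 * (k : ℝ) ^ (2 * K) / δ ^ 2)
  refine ⟨max p1 p2, ?_⟩
  intro p hpf hpp A hA
  have hp : p.Prime := hpf.out
  have hp0 : (0 : ℝ) < p := by exact_mod_cast hp.pos
  have hpp1 : p1 ≤ p := (le_max_left _ _).trans hpp
  have hpp2 : (p2 : ℝ) ≤ p := by exact_mod_cast (le_max_right _ _).trans hpp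
  by_contra hcon
  push Not at hcon
  set S := sym A with hS
  have hcS : S.card = 2 * A.card := card_sym (by norm_num) hA
  have hd : (S.card : ℝ) = 2 * A.card := by rw [hcS]; push_cast; ring
  rw [← hd] at hcon
  set d : ℝ := (S.card : ℝ) with hdd
  have hd0 : 0 < d := by
    have h1 : 0 ≤ d := Nat.cast_nonneg _
    rcases h1.lt_or_eq with h | h
    · exact h
    · exfalso
      rw [← h] at hcon
      have : 0 < (2 / 5 + γ) * p := by positivity
      nlinarith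
  have hSne : S.Nonempty := by
    rw [← Finset.card_pos]
    rw [hdd] at hd0
    exact_mod_cast hd0
  have hSneg : ∀ s ∈ S, -s ∈ S := neg_mem_sym
  have h2 : ∀ y : ZMod p, y ≠ 0 → ((S ×ˢ S).filter (fun q => q.1 - q.2 = y)).card ≤ 2 :=
    fun y hy => diff_le_two (by norm_num) hA y hy
  have h5 : (zs S 5).card = 0 := by
    rw [Finset.card_eq_zero, Finset.eq_empty_iff_forall_notMem]
    intro v hv
    rw [zs, Finset.mem_filter] at hv
    have := even_of_zero (by norm_num) le_rfl hA v hv.2.1 hv.2.2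
    exact absurd this (by decide)
  have h4 : ((zs S 4).card : ℝ) ≤ 3 * d ^ 2 := by
    rw [hdd]
    exact_mod_cast zs_four_le S hSneg h2
  have hd4 : d ^ 2 ≤ 4 * p := by
    rw [hdd]
    exact_mod_cast card_sq_le S h2
  -- the large spectrum
  set L : Finset (ZMod p) := univ.filter (fun r => ε * d ≤ ‖ft (ind S) r‖) with hL
  have hLc : L.card ≤ K := by
    have e1 : (L.card : ℝ) * (ε * d) ^ 4 ≤ ∑ r, ‖ft (ind S) r‖ ^ 4 := by
      rw [← nsmul_eq_mul, ← Finset.sum_const]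
      refine le_trans ?_ (Finset.sum_le_sum_of_subset_of_nonneg (Finset.subset_univ L)
        (fun r _ _ => by positivity))
      refine Finset.sum_le_sum fun r hr => ?_
      rw [hL, Finset.mem_filter] at hr
      exact pow_le_pow_left₀ (by positivity) hr.2 4
    rw [sum_norm_four S hSneg] at e1
    have e2 : (L.card : ℝ) * (ε * d) ^ 4 ≤ p * (3 * d ^ 2) := by
      refine e1.trans ?_
      gcongr
    have e3 : (L.card : ℝ) * ε ^ 4 * d ^ 2 ≤ 3 * p := by
      have : ((L.card : ℝ) * ε ^ 4 * d ^ 2) * d ^ 2 ≤ (3 * p) * d ^ 2 := by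
        calc ((L.card : ℝ) * ε ^ 4 * d ^ 2) * d ^ 2 = (L.card : ℝ) * (ε * d) ^ 4 := by ring
          _ ≤ p * (3 * d ^ 2) := e2
          _ = (3 * p) * d ^ 2 := by ring
      exact le_of_mul_le_mul_right this (by positivity)
    have e4 : (L.card : ℝ) * ε ^ 4 * (2 / 5 * p) ≤ 3 * p := by
      refine le_trans ?_ e3
      have : 2 / 5 * p ≤ d ^ 2 := by nlinarith
      gcongr
    have e5 : (L.card : ℝ) * ε ^ 4 * (2 / 5) ≤ 3 := by
      have : ((L.card : ℝ) * ε ^ 4 * (2 / 5)) * p ≤ 3 * p := by linarith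
      exact le_of_mul_le_mul_right this hp0
    have e6 : (L.card : ℝ) ≤ 15 / (2 * ε ^ 4) := by
      rw [le_div_iff₀ (by positivity)]; linarith
    have e7 : (L.card : ℝ) < K := lt_of_le_of_lt e6 hK
    exact_mod_cast e7.le
  obtain ⟨B, hBne, hBc, hBL⟩ := bohr L k hk0'
  set b : ℝ := (B.card : ℝ) with hb
  have hb0 : 0 < b := by rw [hb]; exact_mod_cast hBne.card_pos
  have hBb : (p : ℝ) ≤ b * (k : ℝ) ^ K := by
    have e1 : (p : ℝ) ≤ b * (k : ℝ) ^ L.card := by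
      rw [hb]; exact_mod_cast hBc
    refine e1.trans ?_
    have : (k : ℝ) ^ L.card ≤ (k : ℝ) ^ K :=
      pow_le_pow_right₀ (by exact_mod_cast hk0') hLc
    gcongr
  have hdb : d ≤ δ * b := by
    have e1 : 4 * (k : ℝ) ^ (2 * K) < p * δ ^ 2 := by
      rw [div_lt_iff₀ (by positivity)] at hp2
      nlinarith [sq_nonneg δ]
    have e2 : d ^ 2 ≤ (δ * b) ^ 2 := by
      have e3 : (p : ℝ) ^ 2 ≤ b ^ 2 * (k : ℝ) ^ (2 * K) := by
        calc (p : ℝ) ^ 2 ≤ (b * (k : ℝ) ^ K) ^ 2 := pow_le_pow_left₀ hp0.le hBb 2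
          _ = b ^ 2 * (k : ℝ) ^ (2 * K) := by ring
      have e4 : (4 * p) * p ≤ (δ * b) ^ 2 * p := by
        calc (4 * p) * p = 4 * (p : ℝ) ^ 2 := by ring
          _ ≤ 4 * (b ^ 2 * (k : ℝ) ^ (2 * K)) := by gcongr
          _ = b ^ 2 * (4 * (k : ℝ) ^ (2 * K)) := by ring
          _ ≤ b ^ 2 * (p * δ ^ 2) := by gcongr
          _ = (δ * b) ^ 2 * p := by ring
      exact hd4.trans (le_of_mul_le_mul_right e4 hp0)
    exact (pow_le_pow_iff_left₀ hd0.le (by positivity) two_ne_zero).1 e2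
  obtain ⟨P, hP1, hP2⟩ := level_set S B hSneg h5 h4 h2 hε0.le hη0.le hδ0 hδ1 hSne hBne
    (fun r hr => by
      have h7 : r ∈ L := by rw [hL, Finset.mem_filter]; exact ⟨Finset.mem_univ _, hr⟩
      refine (hBL r h7).trans ?_
      gcongr)
  -- few zero-sum five-tuples
  have hP3 : ((zs P 5).card : ℝ) ≤ κ * (p : ℝ) ^ 4 := by
    have e1 : 5 * η + 2 * ε = θ := by rw [hη, hε]; ring
    rw [e1] at hP2
    have e2 : ((zs P 5).card : ℝ) * (δ ^ 5 * (2 / 5 * p)) ≤ 3 * θ * (p : ℝ) ^ 5 := by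
      refine le_trans ?_ hP2
      have : 2 / 5 * p ≤ d ^ 2 := by nlinarith
      gcongr
    have e3 : ((zs P 5).card : ℝ) * (δ ^ 5 * (2 / 5) * p) ≤ (κ * (p : ℝ) ^ 4) * (δ ^ 5 * (2 / 5) * p) := by
      calc ((zs P 5).card : ℝ) * (δ ^ 5 * (2 / 5) * p)
          = ((zs P 5).card : ℝ) * (δ ^ 5 * (2 / 5 * p)) := by ring
        _ ≤ 3 * θ * (p : ℝ) ^ 5 := e2
        _ = (κ * (p : ℝ) ^ 4) * (δ ^ 5 * (2 / 5) * p) := by rw [hθ]; ring
    exact le_of_mul_le_mul_right e3 (by positivity)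
  have hP4 := hrob p hpp1 P hP3
  have hP5 : (1 - δ) ^ 2 * d ^ 2 ≤ P.card * (2 + δ) := by
    have e1 : ((1 - δ) ^ 2 * d ^ 2) * b ≤ (P.card * (2 + δ)) * b := by
      refine hP1.trans ?_
      have : (P.card : ℝ) * (d + 2 * b) ≤ P.card * (δ * b + 2 * b) := by gcongr
      refine this.trans (le_of_eq ?_); ring
    exact le_of_mul_le_mul_right e1 hb0
  have hP6 : (1 - δ) ^ 2 * ((2 / 5 + γ) * p) < ((1 / 5 + γ / 4) * p) * (2 + δ) := by
    have e1 : (1 - δ) ^ 2 * ((2 / 5 + γ) * p) < (1 - δ) ^ 2 * d ^ 2 := by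
      have : 0 < (1 - δ) ^ 2 := by
        have : 0 < 1 - δ := by linarith
        positivity
      exact mul_lt_mul_of_pos_left hcon this
    refine lt_of_lt_of_le (e1.trans_le hP5) ?_
    gcongr
  have hP7 : (1 - δ) ^ 2 * (2 / 5 + γ) < (1 / 5 + γ / 4) * (2 + δ) := by
    have e1 : ((1 - δ) ^ 2 * (2 / 5 + γ)) * p < ((1 / 5 + γ / 4) * (2 + δ)) * p := by
      calc ((1 - δ) ^ 2 * (2 / 5 + γ)) * p = (1 - δ) ^ 2 * ((2 / 5 + γ) * p) := by ring
        _ < ((1 / 5 + γ / 4) * p) * (2 + δ) := hP6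
        _ = ((1 / 5 + γ / 4) * (2 + δ)) * p := by ring
    exact lt_of_mul_lt_mul_right e1 hp0.le
  rw [hδ] at hP7
  nlinarith [hP7, hγ, hγ1, mul_pos hγ hγ, mul_pos (mul_pos hγ hγ) hγ]

end Pool.Agent.Helper591.Five
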