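import Pool.Agent.Helper591.Five.Ind

set_option linter.unusedSectionVars false

open Finset

namespace Pool.Agent.Helper591.Five

theorem multiset_two {F : Type*} [Field F] (M M' : Multiset F) (h : M.card = M'.card)
    (hc : M.card ≤ 2) (hs : M.sum = M'.sum) (hp : M.prod = M'.prod) : M = M' := by
  have h3 : M.card = 0 ∨ M.card = 1 ∨ M.card = 2 := by omega
  rcases h3 with h0 | h0 | h0
  · rw [h0] at h
    rw [Multiset.card_eq_zero.1 h0, Multiset.card_eq_zero.1 h.symm]
  · rw [h0] at h
    obtain ⟨a, rfl⟩ := Multiset.card_eq_one.1 h0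
    obtain ⟨b, rfl⟩ := Multiset.card_eq_one.1 h.symm
    simp only [Multiset.sum_singleton] at hs
    rw [hs]
  · rw [h0] at h
    obtain ⟨a, b, rfl⟩ := Multiset.card_eq_two.1 h0
    obtain ⟨x, y, rfl⟩ := Multiset.card_eq_two.1 h.symm
    simp only [Multiset.sum_pair, Multiset.prod_pair] at hs hp
    have h1 : (a - x) * (a - y) = 0 := by linear_combination a * hs - hp
    rcases mul_eq_zero.1 h1 with h2 | h2
    · have e1 : a = x := sub_eq_zero.1 h2
      subst e1
      have e2 : b = y := add_left_cancel hs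
      rw [e2]
    · have e1 : a = y := sub_eq_zero.1 h2
      subst e1
      have e2 : b = x := by linear_combination hs
      rw [e2, Multiset.pair_comm]

theorem prod_map_pow {F : Type*} [CommMonoid F] (g : F) {k : ℕ} (M : Multiset (Fin k)) :
    (M.map (fun i : Fin k => g ^ (i : ℕ))).prod = g ^ (M.map (fun i : Fin k => (i : ℕ))).sum := by
  induction M using Multiset.induction_on with
  | empty => simp
  | cons a s ih => simp [pow_add, ih]

/-- uniqueness part of Ruzsa's Sidon set -/
theorem ruzsa_c {p k : ℕ} [Fact p.Prime] (g : ZMod p) (hg : g ^ k = 1)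
    (hinj : Function.Injective (fun i : Fin k => g ^ (i : ℕ)))
    (c : Fin k → ℤ) (h5 : ∑ i, |c i| ≤ 5) (h0 : ∑ i, c i = 0)
    (h1 : (k : ℤ) ∣ ∑ i, c i * (i : ℕ)) (h2 : ∑ i, (c i : ZMod p) * g ^ (i : ℕ) = 0) :
    ∀ i, c i = 0 := by
  set P : Multiset (Fin k) := ∑ i, (c i).toNat • ({i} : Multiset (Fin k)) with hP
  set Q : Multiset (Fin k) := ∑ i, (-c i).toNat • ({i} : Multiset (Fin k)) with hQ
  have hpm : ∀ z : ℤ, ((z.toNat : ℤ)) - ((-z).toNat : ℤ) = z := fun z => by omega
  have hpa : ∀ z : ℤ, ((z.toNat : ℤ)) + ((-z).toNat : ℤ) = |z| := fun z => by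
    rcases abs_cases z with ⟨h, h'⟩ | ⟨h, h'⟩ <;> omega
  have cP : P.card = ∑ i, (c i).toNat := by
    rw [hP, ← Multiset.cardHom_apply, map_sum]
    refine Finset.sum_congr rfl fun i _ => ?_
    rw [map_nsmul]; simp
  have cQ : Q.card = ∑ i, (-c i).toNat := by
    rw [hQ, ← Multiset.cardHom_apply, map_sum]
    refine Finset.sum_congr rfl fun i _ => ?_
    rw [map_nsmul]; simp
  have hPQ : P.card = Q.card := by
    have : ((P.card : ℤ)) - Q.card = 0 := by
      rw [cP, cQ]; push_cast
      rw [← Finset.sum_sub_distrib, ← h0]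
      exact Finset.sum_congr rfl fun i _ => by
        exact (by simpa using hpm (c i))
    omega
  have hP2 : P.card ≤ 2 := by
    have : ((P.card : ℤ)) + Q.card ≤ 5 := by
      rw [cP, cQ]; push_cast
      rw [← Finset.sum_add_distrib]
      refine le_trans (le_of_eq ?_) h5
      exact Finset.sum_congr rfl fun i _ => by
        have := hpa (c i)
        simpa using this
    omega
  -- general formula for sums over the multisets
  have gen : ∀ (f : Fin k → ZMod p) (w : Fin k → ℕ),
      ((∑ i, w i • ({i} : Multiset (Fin k))).map f).sum = ∑ i, (w i : ZMod p) * f i := by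
    intro f w
    have e1 : ((∑ i, w i • ({i} : Multiset (Fin k))).map f).sum
        = (Multiset.sumAddMonoidHom.comp (Multiset.mapAddMonoidHom f))
          (∑ i, w i • ({i} : Multiset (Fin k))) := rfl
    rw [e1, map_sum]
    refine Finset.sum_congr rfl fun i _ => ?_
    rw [map_nsmul, nsmul_eq_mul]
    simp
  have gen2 : ∀ (f : Fin k → ℕ) (w : Fin k → ℕ),
      ((∑ i, w i • ({i} : Multiset (Fin k))).map f).sum = ∑ i, w i * f i := by
    intro f w
    have e1 : ((∑ i, w i • ({i} : Multiset (Fin k))).map f).sum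
        = (Multiset.sumAddMonoidHom.comp (Multiset.mapAddMonoidHom f))
          (∑ i, w i • ({i} : Multiset (Fin k))) := rfl
    rw [e1, map_sum]
    refine Finset.sum_congr rfl fun i _ => ?_
    rw [map_nsmul, smul_eq_mul]
    simp
  have hsum : (P.map (fun i : Fin k => g ^ (i : ℕ))).sum = (Q.map (fun i : Fin k => g ^ (i : ℕ))).sum := by
    rw [hP, hQ, gen, gen, ← sub_eq_zero, ← Finset.sum_sub_distrib, ← h2]
    refine Finset.sum_congr rfl fun i _ => ?_
    rw [← sub_mul]
    congr 1
    have := congrArg (fun z : ℤ => (z : ZMod p)) (hpm (c i))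
    push_cast at this
    exact this
  have hprod : (P.map (fun i : Fin k => g ^ (i : ℕ))).prod = (Q.map (fun i : Fin k => g ^ (i : ℕ))).prod := by
    rw [prod_map_pow, prod_map_pow, hP, hQ, gen2, gen2]
    refine pow_eq_pow_of_modEq ?_ hg
    rw [← Int.natCast_modEq_iff, Int.modEq_iff_dvd]
    have : ((∑ i : Fin k, (-c i).toNat * (i : ℕ) : ℕ) : ℤ) - ((∑ i : Fin k, (c i).toNat * (i : ℕ) : ℕ) : ℤ)
        = - ∑ i, c i * (i : ℕ) := by
      push_cast
      rw [← Finset.sum_sub_distrib, ← Finset.sum_neg_distrib]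
      refine Finset.sum_congr rfl fun i _ => ?_
      have := hpm (c i)
      nth_rewrite 3 [← this]
      push_cast
      ring
    rw [this]
    exact (dvd_neg).2 h1
  have hmap : P.map (fun i : Fin k => g ^ (i : ℕ)) = Q.map (fun i : Fin k => g ^ (i : ℕ)) :=
    multiset_two _ _ (by simpa using hPQ) (by simpa using hP2) hsum hprod
  have hPQ' : P = Q := Multiset.map_injective hinj hmap
  intro i
  have cnt : ∀ (w : Fin k → ℕ), (∑ j, w j • ({j} : Multiset (Fin k))).count i = w i := by
    intro w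
    rw [Multiset.count_sum']
    simp only [Multiset.count_nsmul, Multiset.count_singleton]
    simp
  have h7 : (c i).toNat = (-c i).toNat := by
    rw [← cnt (fun j => (c j).toNat), ← cnt (fun j => (-c j).toNat)]
    exact congrArg (fun M => Multiset.count i M) hPQ'
  omega

/-- `5`-independent sets of size `p - 1` modulo `6 p (p - 1)` -/
theorem ruzsa {p : ℕ} (hp : p.Prime) (hp2 : 3 ≤ p) :
    ∃ A : Finset (ZMod (6 * ((p - 1) * p))), A.card = p - 1 ∧ Indep (6 * ((p - 1) * p)) 5 A := by
  classical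
  have : Fact p.Prime := ⟨hp⟩
  obtain ⟨g, hgen⟩ := IsCyclic.exists_generator (α := (ZMod p)ˣ)
  have hord : orderOf g = p - 1 := by
    rw [orderOf_eq_card_of_forall_mem_zpowers hgen, Nat.card_eq_fintype_card,
      ZMod.card_units_eq_totient, Nat.totient_prime hp]
  set k : ℕ := p - 1 with hk
  have hk0 : 0 < k := by omega
  have hcop : Nat.Coprime k p := by
    rw [Nat.coprime_comm]
    refine (Nat.Prime.coprime_iff_not_dvd hp).2 fun h => ?_
    have := Nat.le_of_dvd hk0 h
    omega
  set γ : ZMod p := (g : ZMod p) with hγ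
  have hg1 : γ ^ k = 1 := by
    rw [hγ, ← Units.val_pow_eq_pow_val, ← hord, pow_orderOf_eq_one, Units.val_one]
  have hinj : Function.Injective (fun i : Fin k => γ ^ (i : ℕ)) := by
    intro i j hij
    simp only [hγ] at hij
    rw [← Units.val_pow_eq_pow_val, ← Units.val_pow_eq_pow_val] at hij
    have h1 := Units.ext hij
    have h2 : (i : ℕ) = (j : ℕ) := by
      apply pow_injOn_Iio_orderOf (x := g) _ _ h1
      · rw [hord]; exact i.2
      · rw [hord]; exact j.2
    exact Fin.ext h2
  let a : Fin k → ℕ := fun i => (Nat.chineseRemainder hcop (i : ℕ) (γ ^ (i : ℕ)).val : ℕ)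
  have ha1 : ∀ i, a i ≡ (i : ℕ) [MOD k] := fun i => (Nat.chineseRemainder hcop (i : ℕ) (γ ^ (i : ℕ)).val).2.1
  have ha2 : ∀ i, a i ≡ (γ ^ (i : ℕ)).val [MOD p] := fun i =>
    (Nat.chineseRemainder hcop (i : ℕ) (γ ^ (i : ℕ)).val).2.2
  set n : ℕ := 6 * (k * p) with hn
  let α : Fin k → ZMod n := fun i => ((1 + 6 * a i : ℕ) : ZMod n)
  -- the key arithmetic fact
  have key : ∀ c : Fin k → ℤ, ∑ i, |c i| ≤ 5 → ∑ i, c i • α i = 0 → ∀ i, c i = 0 := by
    intro c h5 hc
    have h1 : ((∑ i, c i * (1 + 6 * (a i : ℤ)) : ℤ) : ZMod n) = 0 := by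
      rw [← hc]
      push_cast
      refine Finset.sum_congr rfl fun i _ => ?_
      simp only [α, zsmul_eq_mul]
      push_cast
      ring
    rw [ZMod.intCast_zmod_eq_zero_iff_dvd] at h1
    have h2 : ∑ i, c i * (1 + 6 * (a i : ℤ)) = ∑ i, c i + 6 * ∑ i, c i * (a i : ℤ) := by
      rw [Finset.mul_sum, ← Finset.sum_add_distrib]
      exact Finset.sum_congr rfl fun i _ => by ring
    rw [h2, hn] at h1
    push_cast at h1
    have h3 : (6 : ℤ) ∣ ∑ i, c i := by
      have h4 : (6 : ℤ) ∣ ∑ i, c i + 6 * ∑ i, c i * (a i : ℤ) := dvd_trans (dvd_mul_right _ _) h1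
      exact (Int.dvd_add_left (dvd_mul_right _ _)).1 h4
    have h4 : |∑ i, c i| ≤ 5 := (Finset.abs_sum_le_sum_abs _ _).trans h5
    have h0 : ∑ i, c i = 0 := by
      rw [abs_le] at h4
      obtain ⟨q, hq⟩ := h3
      omega
    rw [h0, zero_add] at h1
    have h6 : ((k : ℤ) * p) ∣ ∑ i, c i * (a i : ℤ) := Int.dvd_of_mul_dvd_mul_left (by norm_num) h1
    have h7 : (k : ℤ) ∣ ∑ i, c i * ((i : ℕ) : ℤ) := by
      have e1 : (k : ℤ) ∣ ∑ i, c i * (a i : ℤ) := dvd_trans (dvd_mul_right _ _) h6
      have e2 : (k : ℤ) ∣ ∑ i, c i * (a i : ℤ) - ∑ i, c i * ((i : ℕ) : ℤ) := by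
        rw [← Finset.sum_sub_distrib]
        refine Finset.dvd_sum fun i _ => ?_
        rw [← mul_sub]
        refine Dvd.dvd.mul_left ?_ _
        have := (ha1 i).symm
        rw [← Int.natCast_modEq_iff, Int.modEq_iff_dvd] at this
        exact this
      exact (Int.dvd_iff_dvd_of_dvd_sub e2).1 e1
    have h8 : ∑ i, (c i : ZMod p) * γ ^ (i : ℕ) = 0 := by
      have e1 : (p : ℤ) ∣ ∑ i, c i * (a i : ℤ) := dvd_trans (dvd_mul_left _ _) h6
      rw [← ZMod.intCast_zmod_eq_zero_iff_dvd] at e1
      rw [← e1]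
      push_cast
      refine Finset.sum_congr rfl fun i _ => ?_
      congr 1
      have := ha2 i
      rw [← ZMod.natCast_eq_natCast_iff] at this
      rw [this, ZMod.natCast_zmod_val]
    exact ruzsa_c γ hg1 hinj c h5 h0 h7 h8
  have hαinj : Function.Injective α := by
    intro i j hij
    by_contra hne
    have h1 := key (fun x => (if x = i then 1 else 0) - (if x = j then 1 else 0)) ?_ ?_ i
    · rw [if_pos rfl, if_neg hne] at h1
      norm_num at h1
    · calc ∑ x, |((if x = i then 1 else 0) - (if x = j then 1 else 0) : ℤ)|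
          ≤ ∑ x, ((if x = i then 1 else 0) + (if x = j then 1 else 0) : ℤ) := by
            refine Finset.sum_le_sum fun x _ => ?_
            split_ifs <;> norm_num
        _ = 2 := by
            rw [Finset.sum_add_distrib, Finset.sum_ite_eq', Finset.sum_ite_eq']
            simp
        _ ≤ 5 := by norm_num
    · simp only [sub_smul, ite_smul, one_smul, zero_smul]
      rw [Finset.sum_sub_distrib, Finset.sum_ite_eq', Finset.sum_ite_eq']
      simp [hij]
  refine ⟨univ.image α, ?_, ?_⟩
  · rw [Finset.card_image_of_injective _ hαinj, Finset.card_univ, Fintype.card_fin]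
  · intro c hc1 hc2 hc3
    rw [Finset.sum_image (fun x _ y _ h => hαinj h)] at hc1 hc2 hc3
    have h1 := key (fun i => c (α i)) (by exact_mod_cast hc2) hc3
    have : ∑ i, |c (α i)| = 0 := by
      refine Finset.sum_eq_zero fun i _ => ?_
      rw [h1 i]; simp
    omega

end Pool.Agent.Helper591.Five
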